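/-
Row RL_Chr (helper89). Products of centred edges in the random graph: Hoeffding bound for one block and union bound.
-/
import Pool.Agent.H11.RO.Hfd
import Pool.Agent.H82.RO.Defs
import Pool.Agent.H49.RG.Reg

set_option autoImplicit false
set_option linter.unusedSectionVars false

open Finset

namespace Pool.Agent.H11.RO

open Pool.Agent.H9.KR
open Pool.Agent.H49.RG (nbr mem_nbr)
open Pool.Agent.H82.RO (HH)

variable {N : ℕ}

/-- The factor of the pair `v u`. -/
noncomputable def Chr_phi (A : Finset (Fin N)) (P : ℝ) (m : Fin N → ℕ) (v u : Fin N)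
    (S : Finset (Sym2 (Fin N))) : ℝ :=
  if u ∈ A then (if s(v, u) ∈ S then 1 else 0) else ((if s(v, u) ∈ S then P else 0) - 1) ^ m u

lemma Chr_phi_congr (A : Finset (Fin N)) (P : ℝ) (m : Fin N → ℕ) (v u : Fin N)
    {S S' : Finset (Sym2 (Fin N))} (h : s(v, u) ∈ S ↔ s(v, u) ∈ S') :
    Chr_phi A P m v u S = Chr_phi A P m v u S' := by
  unfold Chr_phi
  by_cases h1 : s(v, u) ∈ S
  · have h2 := h.1 h1
    simp only [h1, h2]
  · have h2 : s(v, u) ∉ S' := fun h2 => h1 (h.2 h2)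
    simp only [h1, h2]

lemma Chr_phi_abs (A : Finset (Fin N)) (P : ℝ) (hP : 1 ≤ P) (m : Fin N → ℕ) (v u : Fin N)
    (S : Finset (Sym2 (Fin N))) :
    |Chr_phi A P m v u S| ≤ if u ∈ A then 1 else P ^ m u := by
  unfold Chr_phi
  by_cases h1 : u ∈ A
  · simp only [h1, if_true]
    by_cases h2 : s(v, u) ∈ S
    · simp [h2]
    · simp [h2]
  · simp only [h1, if_false]
    rw [abs_pow]
    refine pow_le_pow_left₀ (abs_nonneg _) ?_ _
    by_cases h2 : s(v, u) ∈ S
    · simp only [h2, if_true]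
      rw [abs_le]; constructor <;> linarith
    · simp only [h2, if_false]
      rw [abs_le]; constructor <;> linarith

lemma Chr_prod (A D : Finset (Fin N)) (hAD : Disjoint A D) (P : ℝ) (m : Fin N → ℕ)
    (G : SimpleGraph (Fin N)) (v : Fin N) (S : Finset (Sym2 (Fin N)))
    (hS : ∀ u ∈ A ∪ D, (s(v, u) ∈ S ↔ G.Adj v u)) [Decidable (∀ u ∈ A, G.Adj v u)] :
    ∏ u ∈ A ∪ D, Chr_phi A P m v u S =
      (if ∀ u ∈ A, G.Adj v u then 1 else 0) * ∏ d ∈ D, HH G P v d ^ m d := by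
  classical
  rw [prod_union hAD]
  congr 1
  · have h1 : ∀ u ∈ A, Chr_phi A P m v u S = if G.Adj v u then 1 else 0 := by
      intro u hu
      unfold Chr_phi
      have h2 := hS u (mem_union_left _ hu)
      by_cases h3 : G.Adj v u
      · simp [hu, h2.2 h3, h3]
      · have h4 : s(v, u) ∉ S := fun h5 => h3 (h2.1 h5)
        simp [hu, h4, h3]
    rw [prod_congr rfl h1]
    by_cases h2 : ∀ u ∈ A, G.Adj v u
    · rw [if_pos h2]
      exact prod_eq_one fun u hu => if_pos (h2 u hu)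
    · rw [if_neg h2]
      push Not at h2
      obtain ⟨u, hu, h3⟩ := h2
      exact prod_eq_zero hu (if_neg h3)
  · refine prod_congr rfl fun d hd => ?_
    have h1 : d ∉ A := fun h => disjoint_left.1 hAD h hd
    have h2 := hS d (mem_union_right _ hd)
    unfold Chr_phi HH
    by_cases h3 : G.Adj v d
    · simp [h1, h2.2 h3, h3]
    · have h4 : s(v, d) ∉ S := fun h5 => h3 (h2.1 h5)
      simp [h1, h4, h3]

theorem chr_one (p : unitInterval) (hp : 0 < (p : ℝ)) (B A D : Finset (Fin N)) (hB : B.Nonempty)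
    (hA : Disjoint A B) (hD : Disjoint D B) (hAD : Disjoint A D) (m : Fin N → ℕ)
    (hm : ∃ d ∈ D, m d = 1) (t : ℝ) (ht : 0 < t) :
    pr (fun G : SimpleGraph (Fin N) => (SimpleGraph.binomialRandom (Fin N) p).real {G})
      (fun G => t * (1 / (p : ℝ)) ^ (∑ d ∈ D, m d) <
        |∑ v ∈ nbr G B A, ∏ d ∈ D, HH G (1 / (p : ℝ)) v d ^ m d|) ≤
      2 * Real.exp (-(t ^ 2 / (2 * B.card))) := by
  classical
  have h := rsub_gnp (V := Fin N) p
  have hP1 : (1 : ℝ) ≤ 1 / (p : ℝ) := by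
    rw [le_div_iff₀ hp]; linarith [p.2.2]
  set P : ℝ := 1 / (p : ℝ) with hPdef
  set M : ℝ := P ^ (∑ d ∈ D, m d) with hMdef
  have hM1 : 1 ≤ M := one_le_pow₀ hP1
  have hM : 0 < M := by linarith
  have hne : ∀ v ∈ B, ∀ u ∈ A ∪ D, v ≠ u := by
    intro v hv u hu h1
    subst h1
    rcases mem_union.1 hu with h2 | h2
    · exact disjoint_left.1 hA h2 hv
    · exact disjoint_left.1 hD h2 hv
  have hmemI : ∀ (G : SimpleGraph (Fin N)) (v : Fin N), ∀ u ∈ A ∪ D,
      (s(v, u) ∈ ed G ∩ (A ∪ D).image (fun u => s(v, u)) ↔ G.Adj v u) := by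
    intro G v u hu
    rw [mem_inter, mem_ed]
    exact and_iff_left (mem_image.2 ⟨u, hu, rfl⟩)
  have hmemJ : ∀ (G : SimpleGraph (Fin N)) (v u : Fin N),
      (s(v, u) ∈ ed G ∩ {s(v, u)} ↔ G.Adj v u) := by
    intro G v u
    rw [mem_inter, mem_ed]
    exact and_iff_left (mem_singleton.2 rfl)
  have hsub : ∀ v ∈ B, (A ∪ D).image (fun u => s(v, u)) ⊆ pairs (Fin N) := by
    intro v hv e he
    rw [mem_image] at he
    obtain ⟨u, hu, rfl⟩ := he
    exact mem_pairs.2 (hne v hv u hu)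
  have hdis : ∀ v ∈ B, ∀ v' ∈ B, v ≠ v' → Disjoint ((A ∪ D).image (fun u => s(v, u)))
      ((A ∪ D).image (fun u => s(v', u))) := by
    intro v hv v' hv' hvv
    rw [disjoint_left]
    intro e he he'
    rw [mem_image] at he he'
    obtain ⟨u, hu, rfl⟩ := he
    obtain ⟨u', hu', h1⟩ := he'
    rw [Sym2.eq_iff] at h1
    rcases h1 with ⟨h1, _⟩ | ⟨h1, _⟩
    · exact hvv h1.symm
    · exact hne v' hv' u hu h1
  have h0 : ∀ v ∈ B, ∑ G : SimpleGraph (Fin N), (SimpleGraph.binomialRandom (Fin N) p).real {G} *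
      (∏ u ∈ A ∪ D, Chr_phi A P m v u (ed G ∩ (A ∪ D).image (fun u => s(v, u)))) = 0 := by
    intro v hv
    have e1 : ∀ G : SimpleGraph (Fin N),
        ∏ u ∈ A ∪ D, Chr_phi A P m v u (ed G ∩ (A ∪ D).image (fun u => s(v, u))) =
        ∏ u ∈ A ∪ D, Chr_phi A P m v u (ed G ∩ {s(v, u)}) := fun G =>
      prod_congr rfl fun u hu => Chr_phi_congr A P m v u
        ((hmemI G v u hu).trans (hmemJ G v u).symm)
    simp only [e1]
    have e2 := indep h (A ∪ D) (fun u => ({s(v, u)} : Finset (Sym2 (Fin N))))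
      (fun u hu => by
        rw [singleton_subset_iff]
        exact mem_pairs.2 (hne v hv u hu))
      (fun u hu u' hu' huu => by
        rw [disjoint_singleton]
        intro h1
        rw [Sym2.eq_iff] at h1
        rcases h1 with ⟨_, h1⟩ | ⟨h1, _⟩
        · exact huu h1
        · exact hne v hv u' hu' h1)
      (fun u => Chr_phi A P m v u)
    rw [e2]
    obtain ⟨d, hd, hmd⟩ := hm
    refine prod_eq_zero (mem_union_right _ hd) ?_
    have hdA : d ∉ A := fun h => disjoint_left.1 hAD h hd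
    have e3 : ∀ G : SimpleGraph (Fin N), Chr_phi A P m v d (ed G ∩ {s(v, d)}) =
        P * (if ({s(v, d)} : Finset (Sym2 (Fin N))) ⊆ ed G then 1 else 0) - 1 := by
      intro G
      unfold Chr_phi
      rw [if_neg hdA, hmd, pow_one]
      have e4 : (s(v, d) ∈ ed G ∩ {s(v, d)}) ↔ ({s(v, d)} : Finset (Sym2 (Fin N))) ⊆ ed G := by
        rw [singleton_subset_iff, mem_inter]
        exact and_iff_left (mem_singleton.2 rfl)
      by_cases e5 : s(v, d) ∈ ed G ∩ {s(v, d)}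
      · rw [if_pos e5, if_pos (e4.1 e5), mul_one]
      · rw [if_neg e5, if_neg (fun e6 => e5 (e4.2 e6)), mul_zero]
    simp only [e3]
    have e5 := h.hit {s(v, d)} (by
      rw [singleton_subset_iff]
      exact mem_pairs.2 (hne v hv d (mem_union_right _ hd)))
    rw [card_singleton, pow_one] at e5
    have e6 := h.total
    unfold pr at e5
    have e7 : ∀ G : SimpleGraph (Fin N), (SimpleGraph.binomialRandom (Fin N) p).real {G} *
        (P * (if ({s(v, d)} : Finset (Sym2 (Fin N))) ⊆ ed G then 1 else 0) - 1) =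
        P * (if ({s(v, d)} : Finset (Sym2 (Fin N))) ⊆ ed G then
          (SimpleGraph.binomialRandom (Fin N) p).real {G} else 0) -
        (SimpleGraph.binomialRandom (Fin N) p).real {G} := by
      intro G
      by_cases e8 : ({s(v, d)} : Finset (Sym2 (Fin N))) ⊆ ed G
      · rw [if_pos e8, if_pos e8]; ring
      · rw [if_neg e8, if_neg e8]; ring
    rw [sum_congr rfl fun G _ => e7 G, sum_sub_distrib, ← mul_sum, e6]
    have e9 : ∑ G : SimpleGraph (Fin N), (if ({s(v, d)} : Finset (Sym2 (Fin N))) ⊆ ed G then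
          (SimpleGraph.binomialRandom (Fin N) p).real {G} else 0) = (p : ℝ) := by
      rw [← e5]
      refine sum_congr rfl fun G _ => ?_
      by_cases e8 : ({s(v, d)} : Finset (Sym2 (Fin N))) ⊆ ed G
      · rw [if_pos e8, if_pos e8]
      · rw [if_neg e8, if_neg e8]
    rw [e9, hPdef, one_div, inv_mul_cancel₀ hp.ne', sub_self]
  have hbd : ∀ v ∈ B, ∀ S ⊆ (A ∪ D).image (fun u => s(v, u)),
      |∏ u ∈ A ∪ D, Chr_phi A P m v u S| ≤ M := by
    intro v _ S _
    rw [abs_prod]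
    refine (prod_le_prod (fun _ _ => abs_nonneg _) fun u _ => Chr_phi_abs A P hP1 m v u S).trans
      (le_of_eq ?_)
    rw [prod_union hAD, prod_congr rfl (g := fun _ => (1 : ℝ)) (fun u hu => if_pos hu), prod_const_one,
      one_mul, prod_congr rfl (g := fun d => P ^ m d) (fun d hd => if_neg
        (fun h => disjoint_left.1 hAD h hd)), hMdef, prod_pow_eq_pow_sum]
  have key := hoeffding h B hB (fun v => (A ∪ D).image (fun u => s(v, u))) hsub hdis
    (fun v S => ∏ u ∈ A ∪ D, Chr_phi A P m v u S) M hM hbd h0 (t * M) (mul_pos ht hM)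
  have hcard : (0 : ℝ) < B.card := Nat.cast_pos.2 (card_pos.2 hB)
  have e10 : (t * M) ^ 2 / (2 * (B.card : ℝ) * M ^ 2) = t ^ 2 / (2 * B.card) := by
    field_simp
  rw [e10] at key
  refine (pr_mono h.nonneg ?_).trans key
  intro G hG
  have e11 : ∑ v ∈ B, ∏ u ∈ A ∪ D, Chr_phi A P m v u (ed G ∩ (A ∪ D).image (fun u => s(v, u))) =
      ∑ v ∈ nbr G B A, ∏ d ∈ D, HH G P v d ^ m d := by
    have e12 : nbr G B A = B.filter (fun v => ∀ u ∈ A, G.Adj v u) := by
      ext v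
      rw [mem_nbr, mem_filter]
    rw [e12, sum_filter]
    refine sum_congr rfl fun v _ => ?_
    rw [Chr_prod A D hAD P m G v _ (hmemI G v)]
    by_cases e13 : ∀ u ∈ A, G.Adj v u
    · rw [if_pos e13, if_pos e13, one_mul]
    · rw [if_neg e13, if_neg e13, zero_mul]
  rw [e11]
  exact hG

theorem chr_pr (p : unitInterval) (hp : 0 < (p : ℝ)) (n s K : ℕ) (hn : 0 < n) (hK : 1 ≤ K)
    (Bs : Finset (Finset (Fin N))) (hB : ∀ B ∈ Bs, B.card = n) (t : ℝ) (ht : 0 < t) :
    pr (fun G : SimpleGraph (Fin N) => (SimpleGraph.binomialRandom (Fin N) p).real {G})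
      (fun G => ∃ B ∈ Bs, ∃ A D : Finset (Fin N), A.card ≤ s ∧ D.card ≤ s ∧ Disjoint A B ∧
        Disjoint D B ∧ Disjoint A D ∧ ∃ m : Fin N → ℕ, (∀ d ∈ D, 1 ≤ m d ∧ m d ≤ K) ∧
        (∃ d ∈ D, m d = 1) ∧ t * (1 / (p : ℝ)) ^ (∑ d ∈ D, m d) <
          |∑ v ∈ nbr G B A, ∏ d ∈ D, HH G (1 / (p : ℝ)) v d ^ m d|) ≤
      Bs.card * (((N : ℝ) + 1) ^ s * (((N : ℝ) + 1) ^ s * ((K : ℝ) ^ s *
        (2 * Real.exp (-(t ^ 2 / (2 * n))))))) := by
  classical
  have h := rsub_gnp (V := Fin N) p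
  have hw := h.nonneg
  have hK' : (1 : ℝ) ≤ K := by exact_mod_cast hK
  have hN1 : (0 : ℝ) ≤ ((N : ℝ) + 1) ^ s := by positivity
  have hE : (0 : ℝ) ≤ 2 * Real.exp (-(t ^ 2 / (2 * n))) := by positivity
  refine pr_exists_le_card hw Bs _ _ fun B hBs => ?_
  set Fs : Finset (Finset (Fin N)) := univ.filter fun S : Finset (Fin N) => S.card ≤ s with hFs
  have hFc : (Fs.card : ℝ) ≤ ((N : ℝ) + 1) ^ s := Pool.Agent.H49.RG.Reg_sets s
  set Mp : Finset (Fin N) → Finset (Fin N → ℕ) := fun D =>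
    Fintype.piFinset (fun v => if v ∈ D then Icc 1 K else {1}) with hMp
  have hMc : ∀ D ∈ Fs, ((Mp D).card : ℝ) ≤ (K : ℝ) ^ s := by
    intro D hD
    have hDs : D.card ≤ s := (mem_filter.1 hD).2
    have e1 : (Mp D).card = K ^ D.card := by
      rw [hMp, Fintype.card_piFinset]
      have e2 : ∀ v : Fin N, (if v ∈ D then Icc 1 K else ({1} : Finset ℕ)).card =
          if v ∈ D then K else 1 := by
        intro v
        by_cases hv : v ∈ D
        · rw [if_pos hv, if_pos hv, Nat.card_Icc, Nat.add_sub_cancel]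
        · rw [if_neg hv, if_neg hv, card_singleton]
      rw [prod_congr rfl fun v _ => e2 v, prod_ite_mem, univ_inter, prod_const]
    rw [e1, Nat.cast_pow]
    exact pow_le_pow_right₀ hK' hDs
  have step : ∀ A ∈ Fs, ∀ D ∈ Fs, ∀ m ∈ Mp D,
      pr (fun G : SimpleGraph (Fin N) => (SimpleGraph.binomialRandom (Fin N) p).real {G})
        (fun G => (Disjoint A B ∧ Disjoint D B ∧ Disjoint A D ∧ ∃ d ∈ D, m d = 1) ∧
          t * (1 / (p : ℝ)) ^ (∑ d ∈ D, m d) <
            |∑ v ∈ nbr G B A, ∏ d ∈ D, HH G (1 / (p : ℝ)) v d ^ m d|) ≤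
        2 * Real.exp (-(t ^ 2 / (2 * n))) := by
    intro A _ D _ m _
    by_cases hc : Disjoint A B ∧ Disjoint D B ∧ Disjoint A D ∧ ∃ d ∈ D, m d = 1
    · have hBn : B.Nonempty := by
        rw [← card_pos, hB B hBs]; exact hn
      have e1 := chr_one p hp B A D hBn hc.1 hc.2.1 hc.2.2.1 m hc.2.2.2 t ht
      rw [hB B hBs] at e1
      exact (pr_mono hw fun G hG => hG.2).trans e1
    · refine le_trans (le_of_eq ?_) hE
      unfold pr
      refine sum_eq_zero fun G _ => ?_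
      rw [if_neg fun hG => hc hG.1]
  refine (pr_mono hw (Q := fun G => ∃ A ∈ Fs, ∃ D ∈ Fs, ∃ m ∈ Mp D,
      (Disjoint A B ∧ Disjoint D B ∧ Disjoint A D ∧ ∃ d ∈ D, m d = 1) ∧
          t * (1 / (p : ℝ)) ^ (∑ d ∈ D, m d) <
            |∑ v ∈ nbr G B A, ∏ d ∈ D, HH G (1 / (p : ℝ)) v d ^ m d|) ?_).trans ?_
  · rintro G ⟨A, D, h1, h2, h3, h4, h5, m, h6, ⟨d, hd, hmd⟩, h8⟩
    refine ⟨A, mem_filter.2 ⟨mem_univ _, h1⟩, D, mem_filter.2 ⟨mem_univ _, h2⟩,
      fun v => if v ∈ D then m v else 1, ?_, ⟨h3, h4, h5, d, hd, ?_⟩, ?_⟩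
    · rw [hMp, Fintype.mem_piFinset]
      intro v
      by_cases hv : v ∈ D
      · simp only [hv, if_true]
        exact mem_Icc.2 (h6 v hv)
      · simp only [hv, if_false]
        exact mem_singleton.2 rfl
    · simp only [hd, if_true]
      exact hmd
    · have e1 : ∑ d ∈ D, (if d ∈ D then m d else 1) = ∑ d ∈ D, m d :=
        sum_congr rfl fun d hd => if_pos hd
      have e2 : ∀ v, ∏ d ∈ D, HH G (1 / (p : ℝ)) v d ^ (if d ∈ D then m d else 1) =
          ∏ d ∈ D, HH G (1 / (p : ℝ)) v d ^ m d := fun v =>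
        prod_congr rfl fun d hd => by rw [if_pos hd]
      simp only [e1, e2]
      exact h8
  · refine (pr_exists_le_card hw Fs _ (((N : ℝ) + 1) ^ s * ((K : ℝ) ^ s *
        (2 * Real.exp (-(t ^ 2 / (2 * n)))))) fun A hA => ?_).trans
      (mul_le_mul_of_nonneg_right hFc (by positivity))
    refine (pr_exists_le_card hw Fs _ ((K : ℝ) ^ s *
        (2 * Real.exp (-(t ^ 2 / (2 * n))))) fun D hD => ?_).trans
      (mul_le_mul_of_nonneg_right hFc (by positivity))
    exact (pr_exists_le_card hw (Mp D) _ (2 * Real.exp (-(t ^ 2 / (2 * n))))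
      fun m hm => step A hA D hD m hm).trans (mul_le_mul_of_nonneg_right (hMc D hD) hE)

end Pool.Agent.H11.RO
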