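/-
ROW RL_Dc (about 200 lines). Double counting and Cauchy-Schwarz for the number of members of a family that are adjacent to a point. `Vf P c O y T A q z` (Ifc.lean) `= M^((g-|A|)|T|) #{o ∈ O | y o = q on A, z i adj y o j (i ∈ T, j ∉ A)} / #O`, `M = 1/p`; `A = ∅`: the condition `∀ j ∈ ∅` is empty.
W_add: `W L u (φ + g) p^(g (L - u)) = W L u φ` (definition of `W`), so `W L u (φ + g) = W L u φ (1/p)^(g (L-u))`.
dc_eq: `∑_o #{x ∈ Y | x adj y o on Uᶜ} = ∑_{x ∈ Y} #{o | ..}` (`Finset.sum_comm` / `sum_card_bipartiteAbove_eq_sum_card_bipartiteBelow`), `#Uᶜ = L - #U`, W_add.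
cs: `(∑_{S'} V)² ≤ #S' ∑_{S'} V²` (`Finset.sum_mul_sq_le_sq_mul_sq` or `inner_mul_le_norm_mul_norm`; `sq_sum_le_card_mul_sum_sq`), `≤ #S' ∑_S V²`. With `#S' κ^2 ≤ A² #S`, `∑_S V² ≤ B² #S`: `(κ ∑_{S'} V)² ≤ (A B #S)²`; take roots (`abs_le_of_sq_le` / `pow_le_pow_left₀` contrapositive; `0 ≤ A, B, κ`).
cs_nat: `S = natT T`, `S'` = minimal violators, `κ = h^(4 min)`: `#S' κ² = #S' h^(8 min) ≤ #S` (mv_nat), `A = 1`; mom2: `B² = 256^L`, `B = 16^L`.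
cs_full: `S = cell`, mv_full, `A² = 512^L ≤ 32^(2L)`, `A = 32^L`; mom2 with `T = Uᶜ`: `natT P U α Φ Uᶜ = cell` (nat_compl), `B = 16^L`; `A B = 512^L`.
nat_compl: unfold (`Eqn U x α`, `x ∈ pts`, `Ad univ x Φ`).
-/
import Pool.Agent.H11.RO.Ifc

set_option autoImplicit false
set_option linter.unusedSectionVars false

open Finset

namespace Pool.Agent.H49.RO

open Pool.Agent.H49.RG (Cl Ad Eqn nbr cell pts mem_cell mem_nbr mem_pts cell_sub cell_mono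
  cell_anti cell_cell cell_eq)

open Pool.Agent.H82.RO (HH ZZ Vio MVio NoVio Fam natT)

variable {ν ω : Type} [Fintype ν] [DecidableEq ν] [DecidableEq ω] {L g : ℕ}

theorem W_add {c : Num} (hp : 0 < c.p) (u φ g' : ℕ) :
    c.W L u (φ + g') = c.W L u φ * (1 / c.p) ^ (g' * (L - u)) := by
  unfold Num.W
  have h1 : c.p ^ (φ * (L - u)) ≠ 0 := (pow_pos hp _).ne'
  have h2 : c.p ^ (g' * (L - u)) ≠ 0 := (pow_pos hp _).ne'
  rw [add_mul, pow_add, one_div, inv_pow]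
  field_simp

theorem nat_compl (P : Pl ν L) (U : Finset (Fin L)) (α : Fin L → ν) (Φ : Finset ν) :
    natT P U α Φ Uᶜ = cell P.G (pts P.G P.V) U α Φ := by
  ext x
  rw [H82.RO.mem_natT, mem_cell, mem_pts]
  unfold Eqn Ad Cl
  simp only [mem_compl, not_not, union_compl, mem_univ, true_implies]
  tauto

theorem Vf_nonneg {P : Pl ν L} {c : Num} (hp : 0 < c.p) (O : Finset ω) (y : ω → Fin g → ν)
    (T : Finset (Fin L)) (A : Finset (Fin g)) (q : Fin g → ν) (z : Fin L → ν) :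
    0 ≤ Vf P c O y T A q z := by
  unfold Vf
  positivity

open Classical in
theorem dc_eq {P : Pl ν L} {c : Num} (hp : 0 < c.p) (U : Finset (Fin L)) (φ : ℕ) (O : Finset ω)
    (hO : O.Nonempty) (y : ω → Fin g → ν) (Y : Finset (Fin L → ν)) (q : Fin g → ν) :
    ∑ o ∈ O, ((Y.filter (fun x => ∀ i ∉ U, ∀ j, P.G.Adj (x i) (y o j))).card : ℝ) *
      c.W L U.card (φ + g) = O.card * ((∑ x ∈ Y, Vf P c O y Uᶜ ∅ q x) * c.W L U.card φ) := by
  have hO0 : (O.card : ℝ) ≠ 0 := by exact_mod_cast hO.card_pos.ne'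
  have hV : ∀ x : Fin L → ν, Vf P c O y Uᶜ ∅ q x = (1 / c.p) ^ (g * (L - U.card)) *
      ((O.filter (fun o => ∀ i ∉ U, ∀ j, P.G.Adj (x i) (y o j))).card : ℝ) / O.card := by
    intro x
    unfold Vf
    rw [card_empty, Nat.sub_zero, card_compl, Fintype.card_fin]
    congr 4
    ext o
    simp
  have hs : ∑ o ∈ O, ((Y.filter (fun x => ∀ i ∉ U, ∀ j, P.G.Adj (x i) (y o j))).card : ℝ) =
      ∑ x ∈ Y, ((O.filter (fun o => ∀ i ∉ U, ∀ j, P.G.Adj (x i) (y o j))).card : ℝ) := by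
    have := Finset.sum_card_bipartiteAbove_eq_sum_card_bipartiteBelow
      (s := O) (t := Y) (fun o x => ∀ i ∉ U, ∀ j, P.G.Adj (x i) (y o j))
    exact_mod_cast this
  rw [← sum_mul, hs, W_add hp]
  simp only [hV]
  rw [← sum_div, ← mul_sum]
  field_simp

/-- Upper bound: sets `X o` of points of `Y` adjacent to `y o`. -/
theorem dc_le {P : Pl ν L} {c : Num} (hp : 0 < c.p) (hn : 0 < c.n) (U : Finset (Fin L)) (φ : ℕ)
    (O : Finset ω) (hO : O.Nonempty) (y : ω → Fin g → ν) (Y : Finset (Fin L → ν))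
    (X : ω → Finset (Fin L → ν)) (hX : ∀ o ∈ O, X o ⊆ Y)
    (hXy : ∀ o ∈ O, ∀ x ∈ X o, ∀ i ∉ U, ∀ j, P.G.Adj (x i) (y o j)) (q : Fin g → ν) :
    ∑ o ∈ O, ((X o).card : ℝ) * c.W L U.card (φ + g) ≤
      O.card * ((∑ x ∈ Y, Vf P c O y Uᶜ ∅ q x) * c.W L U.card φ) := by
  classical
  rw [← dc_eq (P := P) (c := c) hp U φ O hO y Y q]
  refine sum_le_sum fun o ho => ?_
  refine mul_le_mul_of_nonneg_right ?_ (Num.W_pos hp hn _ _ _).le
  exact_mod_cast card_le_card fun x hx => mem_filter.2 ⟨hX o ho hx, hXy o ho x hx⟩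

theorem cs {κ : Type} [DecidableEq κ] (S S' : Finset κ) (hS : S' ⊆ S) (V : κ → ℝ)
    (hV : ∀ z ∈ S, 0 ≤ V z) (A B t : ℝ) (hA : 0 ≤ A) (hB : 0 ≤ B) (ht : 0 ≤ t)
    (h1 : (S'.card : ℝ) * t ^ 2 ≤ A ^ 2 * S.card) (h2 : ∑ z ∈ S, V z ^ 2 ≤ B ^ 2 * S.card) :
    (∑ z ∈ S', V z) * t ≤ A * B * S.card := by
  have h3 : (∑ z ∈ S', V z) ^ 2 ≤ S'.card * ∑ z ∈ S', V z ^ 2 := sq_sum_le_card_mul_sum_sq
  have h4 : ∑ z ∈ S', V z ^ 2 ≤ ∑ z ∈ S, V z ^ 2 :=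
    sum_le_sum_of_subset_of_nonneg hS fun _ _ _ => sq_nonneg _
  have h5 : (0 : ℝ) ≤ ∑ z ∈ S, V z ^ 2 := sum_nonneg fun _ _ => sq_nonneg _
  have h6 : ((∑ z ∈ S', V z) * t) ^ 2 ≤ (A * B * S.card) ^ 2 := by
    calc ((∑ z ∈ S', V z) * t) ^ 2 = (∑ z ∈ S', V z) ^ 2 * t ^ 2 := by ring
      _ ≤ (S'.card * ∑ z ∈ S', V z ^ 2) * t ^ 2 := mul_le_mul_of_nonneg_right h3 (sq_nonneg _)
      _ ≤ (S'.card * ∑ z ∈ S, V z ^ 2) * t ^ 2 := by gcongr
      _ = (S'.card * t ^ 2) * ∑ z ∈ S, V z ^ 2 := by ring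
      _ ≤ (A ^ 2 * S.card) * ∑ z ∈ S, V z ^ 2 := mul_le_mul_of_nonneg_right h1 h5
      _ ≤ (A ^ 2 * S.card) * (B ^ 2 * S.card) := by gcongr
      _ = (A * B * S.card) ^ 2 := by ring
  exact le_trans (le_abs_self _) (abs_le_of_sq_le_sq h6 (by positivity))

open Classical in
theorem cs_nat {P : Pl ν L} {c : Num} {R : ℕ} (h : P.OK c) (hc : c.OK R L)
    {B l : ℝ} (ht : c.TOK L B l)
    (U : Finset (Fin L)) (α : Fin L → ν) (Φ : Finset ν) (hΦ : Φ ⊆ P.Out) (hΦc : Φ.card ≤ 3 * L)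
    (hv : P.Val U α Φ) (hg : g ≤ c.w) (O : Finset ω) (y : ω → Fin g → ν)
    (hy : Fam P U α Φ O y (rho c L U.card B)) (T : Finset (Fin L)) (hT0 : T.Nonempty)
    (hT : Disjoint T U) (q : Fin g → ν) :
    (∑ z ∈ (natT P U α Φ T).filter (fun z =>
      MVio P.G (1 / c.p) c.D O y (c.h ^ 1000) (l / rho c L U.card B) T z), Vf P c O y T ∅ q z) *
      c.h ^ (4 * min T.card c.t0) ≤ 16 ^ L * (natT P U α Φ T).card := by
  have hp : 0 < c.p := hc.p_pos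
  have hh : (0 : ℝ) ≤ c.h := zero_le_one.trans hc.h_ge
  have e1 : (c.h ^ (4 * min T.card c.t0)) ^ 2 = c.h ^ (8 * min T.card c.t0) := by
    rw [← pow_mul]; congr 1; ring
  have e2 : ((16 : ℝ) ^ L) ^ 2 = 256 ^ L := by
    rw [← pow_mul, mul_comm, pow_mul]; norm_num
  have h1 := mv_nat h hc ht U α Φ hΦ hΦc hv hg O y hy T hT0 hT
  have h2 := mom2 h hc ht U α Φ hΦ hΦc hv hg O y hy T hT q
  have := cs (natT P U α Φ T) ((natT P U α Φ T).filter (fun z =>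
      MVio P.G (1 / c.p) c.D O y (c.h ^ 1000) (l / rho c L U.card B) T z)) (filter_subset _ _)
    (fun z => Vf P c O y T ∅ q z) (fun z _ => Vf_nonneg hp O y T ∅ q z) 1 (16 ^ L)
    (c.h ^ (4 * min T.card c.t0)) zero_le_one (by positivity) (by positivity)
    (by rw [e1, one_pow, one_mul]; exact h1) (by rw [e2]; exact h2)
  rw [one_mul] at this
  exact this

open Classical in
theorem cs_full {P : Pl ν L} {c : Num} {R : ℕ} (h : P.OK c) (hc : c.OK R L)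
    {B l : ℝ} (ht : c.TOK L B l)
    (U : Finset (Fin L)) (α : Fin L → ν) (Φ : Finset ν) (hΦ : Φ ⊆ P.Out) (hΦc : Φ.card ≤ 3 * L)
    (hv : P.Val U α Φ) (hg : g ≤ c.w) (O : Finset ω) (y : ω → Fin g → ν)
    (hy : Fam P U α Φ O y (rho c L U.card B)) (T : Finset (Fin L)) (hT0 : T.Nonempty)
    (hT : Disjoint T U) (q : Fin g → ν) :
    (∑ z ∈ (cell P.G (pts P.G P.V) U α Φ).filter (fun z =>
      MVio P.G (1 / c.p) c.D O y (c.h ^ 1000) (l / rho c L U.card B) T z), Vf P c O y Uᶜ ∅ q z) *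
      c.h ^ (4 * min T.card c.t0) ≤ 512 ^ L * (cell P.G (pts P.G P.V) U α Φ).card := by
  have hp : 0 < c.p := hc.p_pos
  have hh : (0 : ℝ) ≤ c.h := zero_le_one.trans hc.h_ge
  have e1 : (c.h ^ (4 * min T.card c.t0)) ^ 2 = c.h ^ (8 * min T.card c.t0) := by
    rw [← pow_mul]; congr 1; ring
  have e2 : ((16 : ℝ) ^ L) ^ 2 = 256 ^ L := by
    rw [← pow_mul, mul_comm, pow_mul]; norm_num
  have e3 : (512 : ℝ) ^ L ≤ ((32 : ℝ) ^ L) ^ 2 := by
    rw [← pow_mul, mul_comm, pow_mul]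
    exact pow_le_pow_left₀ (by norm_num) (by norm_num) _
  have e4 : (32 : ℝ) ^ L * 16 ^ L = 512 ^ L := by
    rw [← mul_pow]; norm_num
  have h1 := mv_full h hc ht U α Φ hΦ hΦc hv hg O y hy T hT0 hT
  have h2 := mom2 h hc ht U α Φ hΦ hΦc hv hg O y hy Uᶜ
    (disjoint_left.2 fun i hi hiU => (mem_compl.1 hi) hiU) q
  rw [nat_compl] at h2
  have := cs (cell P.G (pts P.G P.V) U α Φ) ((cell P.G (pts P.G P.V) U α Φ).filter (fun z =>
      MVio P.G (1 / c.p) c.D O y (c.h ^ 1000) (l / rho c L U.card B) T z)) (filter_subset _ _)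
    (fun z => Vf P c O y Uᶜ ∅ q z) (fun z _ => Vf_nonneg hp O y Uᶜ ∅ q z) (32 ^ L) (16 ^ L)
    (c.h ^ (4 * min T.card c.t0)) (by positivity) (by positivity) (by positivity)
    (by
      rw [e1]
      exact h1.trans (mul_le_mul_of_nonneg_right e3 (Nat.cast_nonneg _)))
    (by rw [e2]; exact h2)
  rw [e4] at this
  exact this

end Pool.Agent.H49.RO
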