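/-
ROW RL_Hvs (about 200 lines). The three estimates of Lemma H (section 6) for a family of sets `X o` of points adjacent to `y o` (cell `U, α, Φ`; `t = #S`, `u = #U`, `φ = #Φ`). For `o ∈ O` the letters `y o j` are `g` different letters outside `Φ` (Fam.inj, Fam.dis), so `#(Φ ∪ univ.image (y o)) = φ + g`, and the points of `X o` are adjacent to them in all rows.
hv_fine. `den ((X o).filter Fn) = #.. W (u, φ + g)` (den_of_sub); dc_le with `Y' = Y.filter Fn` and `Vf ≤ 5/4` (fine_one) gives `≤ #O (5/4) #Y' W (u, φ) ≤ #O (5/4) den Y`.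
hv_large. dc_le with `Y = (cell pts U α Φ).filter (MVio S)`; cs_full; `#cell W (u, φ) = den (pts) ≤ 8^L Tot` (den_all_le). `512^L 8^L = 4096^L`.
hv_small. For `x ∈ X o` with `MVio S x` let `z = x` on `S`, `α` elsewhere: `z ∈ natT P U α Φ S` (mem_natT; x is a clique point, `x = α` on `U`, adjacent to `Φ`), `MVio S z` (MVio_congr), `z` adjacent to `y o` in the rows `S`. The points `x ∈ X o` with the same `z` lie in `cell (X o) (U ∪ S) z (Φ ∪ image)`, so (hD, definition of den, `#(U ∪ S) = u + t`) there are at most `D / W (u + t, φ + g)` of them.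
 So `den ((X o).filter (MVio S)) ≤ (W (u, φ+g) / W (u+t, φ+g)) D #{z ∈ natT | MVio S z, z i adj y o j for i ∈ S}` and `W (u, φ+g) / W (u+t, φ+g) = (1/p)^(g t) W (u, φ) / W (u+t, φ)` (W_add twice, `L - u = (L - (u+t)) + t`, `u + t ≤ L`). Sum over `o` (exchange the sums): `∑_o (1/p)^(g t) #{z ..} = #O ∑_{z ∈ natT, MVio S z} Vf P c O y S ∅ q z`.
 cs_nat: times `h^(4 min)` it is `≤ #O 16^L #natT`; nat_card: `#natT W (u, φ) ≤ 8^L W (u+t, φ)`. Total `128^L D #O`. (`q`: any function, e.g. `y o` for `o ∈ O`, O nonempty.)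
-/
import Pool.Agent.H11.RO.Dc

set_option autoImplicit false
set_option linter.unusedSectionVars false

open Finset

namespace Pool.Agent.H49.RO

open Pool.Agent.H49.RG (Cl Ad Eqn nbr cell pts mem_cell mem_nbr mem_pts cell_sub cell_mono
  cell_anti cell_cell cell_eq)
open Pool.Agent.H82.RO (HH ZZ Vio MVio NoVio Fam natT MVio_congr mem_natT)

variable {ν ω : Type} [Fintype ν] [DecidableEq ν] [DecidableEq ω] {L g : ℕ}

theorem Hvs_card {P : Pl ν L} {U : Finset (Fin L)} {α : Fin L → ν} {Φ : Finset ν}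
    {O : Finset ω} {y : ω → Fin g → ν} {ρ : ℝ} (hy : Fam P U α Φ O y ρ) {o : ω} (ho : o ∈ O) :
    (Φ ∪ univ.image (y o)).card = Φ.card + g := by
  rw [card_union_of_disjoint, card_image_of_injective _ (hy.inj o ho), card_univ,
    Fintype.card_fin]
  rw [disjoint_right]
  intro v hv
  obtain ⟨j, _, rfl⟩ := mem_image.1 hv
  exact hy.dis o ho j

theorem Hvs_adj {P : Pl ν L} {U : Finset (Fin L)} {α : Fin L → ν} {Φ : Finset ν}
    {yo : Fin g → ν} {x : Fin L → ν}
    (hx : x ∈ cell P.G (pts P.G P.V) U α (Φ ∪ univ.image yo)) (i : Fin L) (j : Fin g) :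
    P.G.Adj (x i) (yo j) :=
  (mem_cell.1 hx).2.2 i (mem_univ i) (yo j)
    (mem_union_right _ (mem_image_of_mem _ (mem_univ j)))

theorem Hvs_dc {P : Pl ν L} {c : Num} {R : ℕ} (hc : c.OK R L) (U : Finset (Fin L))
    (α : Fin L → ν) (Φ : Finset ν) (O : Finset ω) (y : ω → Fin g → ν) {ρ : ℝ}
    (hy : Fam P U α Φ O y ρ) (Y : Finset (Fin L → ν)) (X : ω → Finset (Fin L → ν))
    (hX : ∀ o ∈ O, X o ⊆ Y)
    (hX' : ∀ o ∈ O, X o ⊆ cell P.G (pts P.G P.V) U α (Φ ∪ univ.image (y o))) (q : Fin g → ν) :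
    ∑ o ∈ O, P.den c (X o) U α (Φ ∪ univ.image (y o)) ≤
      O.card * ((∑ x ∈ Y, Vf P c O y Uᶜ ∅ q x) * c.W L U.card Φ.card) := by
  have h1 : ∑ o ∈ O, P.den c (X o) U α (Φ ∪ univ.image (y o)) =
      ∑ o ∈ O, ((X o).card : ℝ) * c.W L U.card (Φ.card + g) := by
    refine sum_congr rfl fun o ho => ?_
    rw [P.den_of_sub c (hX' o ho), Hvs_card hy ho]
  rw [h1]
  exact dc_le hc.p_pos hc.n_pos U Φ.card O hy.ne y Y X hX
    (fun o ho x hx i _ j => Hvs_adj (hX' o ho hx) i j) q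

theorem Hvs_sum_le {S : Finset (Fin L → ν)} {F : (Fin L → ν) → ℝ} {C : ℝ}
    (h : ∀ x ∈ S, F x ≤ C) : ∑ x ∈ S, F x ≤ S.card * C := by
  have := sum_le_card_nsmul S F C h
  rwa [nsmul_eq_mul] at this

/-- The points with `z` on the rows `S`. -/
def Hvs_pt (S : Finset (Fin L)) (α x : Fin L → ν) : Fin L → ν := fun i =>
  if i ∈ S then x i else α i

theorem Hvs_pt_mem {S : Finset (Fin L)} {α x : Fin L → ν} {i : Fin L} (hi : i ∈ S) :
    Hvs_pt S α x i = x i := if_pos hi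

theorem Hvs_pt_not {S : Finset (Fin L)} {α x : Fin L → ν} {i : Fin L} (hi : i ∉ S) :
    Hvs_pt S α x i = α i := if_neg hi

theorem Hvs_pt_union {P : Pl ν L} {U S : Finset (Fin L)} {α x : Fin L → ν} {Ψ : Finset ν}
    (hS : Disjoint S U) (hx : x ∈ cell P.G (pts P.G P.V) U α Ψ) {i : Fin L}
    (hi : i ∈ U ∪ S) : Hvs_pt S α x i = x i := by
  by_cases h : i ∈ S
  · exact Hvs_pt_mem h
  · rw [Hvs_pt_not h]
    rcases mem_union.1 hi with h' | h'
    · exact ((mem_cell.1 hx).2.1 i h').symm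
    · exact absurd h' h

theorem Hvs_pt_nat {P : Pl ν L} {U S : Finset (Fin L)} {α x : Fin L → ν} {Φ Ψ : Finset ν}
    (hS : Disjoint S U) (hΨ : Φ ⊆ Ψ) (hx : x ∈ cell P.G (pts P.G P.V) U α Ψ) :
    Hvs_pt S α x ∈ natT P U α Φ S := by
  obtain ⟨h1, h2, h3⟩ := mem_cell.1 hx
  obtain ⟨h4, h5⟩ := mem_pts.1 h1
  rw [mem_natT]
  refine ⟨fun i hi => Hvs_pt_not hi, fun i hi => ?_, fun i hi j hj hij => ?_,
    fun i hi v hv => ?_⟩
  · rw [Hvs_pt_union hS hx hi]
    exact h4 i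
  · rw [Hvs_pt_union hS hx hi, Hvs_pt_union hS hx hj]
    exact h5 i j hij
  · rw [Hvs_pt_union hS hx hi]
    exact h3 i (mem_univ i) v (hΨ hv)

theorem Hvs_W {c : Num} (hp : 0 < c.p) (u t φ g' : ℕ) (hut : u + t ≤ L) :
    c.W L u (φ + g') * c.W L (u + t) φ =
      c.W L u φ * c.W L (u + t) (φ + g') * (1 / c.p) ^ (g' * t) := by
  rw [W_add hp u φ g', W_add hp (u + t) φ g']
  have h : g' * (L - u) = g' * (L - (u + t)) + g' * t := by
    rw [← Nat.mul_add]
    congr 1
    omega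
  rw [h, pow_add]
  ring

open Classical in
theorem hv_fine {P : Pl ν L} {c : Num} {R : ℕ} (h : P.OK c) (hc : c.OK R L)
    {B l : ℝ} (ht : c.TOK L B l) (U : Finset (Fin L)) (α : Fin L → ν) (Φ : Finset ν)
    (hg : g ≤ c.w) (O : Finset ω) (y : ω → Fin g → ν)
    (hy : Fam P U α Φ O y (rho c L U.card B)) (Y : Finset (Fin L → ν))
    (hY : Y ⊆ cell P.G (pts P.G P.V) U α Φ) (X : ω → Finset (Fin L → ν))
    (hX : ∀ o ∈ O, X o ⊆ Y)
    (hX' : ∀ o ∈ O, X o ⊆ cell P.G (pts P.G P.V) U α (Φ ∪ univ.image (y o))) :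
    ∑ o ∈ O, P.den c ((X o).filter (fun x => Fn P c B l U O y x)) U α
      (Φ ∪ univ.image (y o)) ≤ 5 / 4 * P.den c Y U α Φ * O.card := by
  obtain ⟨o0, ho0⟩ := hy.ne
  have hW : 0 < c.W L U.card Φ.card := Num.W_pos hc.p_pos hc.n_pos _ _ _
  have h1 := Hvs_dc hc U α Φ O y hy (Y.filter (fun x => Fn P c B l U O y x))
    (fun o => (X o).filter (fun x => Fn P c B l U O y x))
    (fun o ho => filter_subset_filter _ (hX o ho))
    (fun o ho => (filter_subset _ _).trans (hX' o ho)) (y o0)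
  refine h1.trans ?_
  have h2 : ∑ x ∈ Y.filter (fun x => Fn P c B l U O y x), Vf P c O y Uᶜ ∅ (y o0) x ≤
      (Y.filter (fun x => Fn P c B l U O y x)).card * (5 / 4) :=
    Hvs_sum_le fun x hx => (fine_one h hc ht U α Φ hg O y hy x (mem_filter.1 hx).2 (y o0)).2
  have h3 : ((Y.filter (fun x => Fn P c B l U O y x)).card : ℝ) ≤ Y.card := by
    exact_mod_cast card_le_card (filter_subset _ _)
  have h4 : (∑ x ∈ Y.filter (fun x => Fn P c B l U O y x), Vf P c O y Uᶜ ∅ (y o0) x) *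
      c.W L U.card Φ.card ≤ 5 / 4 * P.den c Y U α Φ := by
    rw [P.den_of_sub c hY]
    have h5 : (∑ x ∈ Y.filter (fun x => Fn P c B l U O y x), Vf P c O y Uᶜ ∅ (y o0) x) ≤
        Y.card * (5 / 4) := by linarith
    calc _ ≤ Y.card * (5 / 4) * c.W L U.card Φ.card := mul_le_mul_of_nonneg_right h5 hW.le
      _ = _ := by ring
  calc _ ≤ (O.card : ℝ) * (5 / 4 * P.den c Y U α Φ) :=
        mul_le_mul_of_nonneg_left h4 (Nat.cast_nonneg _)
    _ = _ := by ring

open Classical in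
theorem hv_large {P : Pl ν L} {c : Num} {R : ℕ} (h : P.OK c) (hc : c.OK R L)
    {B l : ℝ} (ht : c.TOK L B l)
    (U : Finset (Fin L)) (α : Fin L → ν) (Φ : Finset ν) (hΦ : Φ ⊆ P.Out) (hΦc : Φ.card ≤ 3 * L)
    (hv : P.Val U α Φ) (hg : g ≤ c.w) (O : Finset ω) (y : ω → Fin g → ν)
    (hy : Fam P U α Φ O y (rho c L U.card B)) (X : ω → Finset (Fin L → ν))
    (hX : ∀ o ∈ O, X o ⊆ cell P.G (pts P.G P.V) U α (Φ ∪ univ.image (y o)))
    (S : Finset (Fin L)) (hS0 : S.Nonempty) (hS : Disjoint S U) :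
    (∑ o ∈ O, P.den c ((X o).filter (fun x =>
      MVio P.G (1 / c.p) c.D O y (c.h ^ 1000) (l / rho c L U.card B) S x)) U α
      (Φ ∪ univ.image (y o))) * c.h ^ (4 * min S.card c.t0) ≤ 4096 ^ L * c.Tot L * O.card := by
  obtain ⟨o0, ho0⟩ := hy.ne
  have hW : 0 < c.W L U.card Φ.card := Num.W_pos hc.p_pos hc.n_pos _ _ _
  have hh : (0 : ℝ) ≤ c.h ^ (4 * min S.card c.t0) := pow_nonneg (by linarith [hc.h_ge]) _
  have hsub : ∀ o, cell P.G (pts P.G P.V) U α (Φ ∪ univ.image (y o)) ⊆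
      cell P.G (pts P.G P.V) U α Φ := fun o =>
    cell_anti _ (subset_refl U) (fun _ _ => rfl) subset_union_left
  have h1 := Hvs_dc hc U α Φ O y hy ((cell P.G (pts P.G P.V) U α Φ).filter (fun x =>
      MVio P.G (1 / c.p) c.D O y (c.h ^ 1000) (l / rho c L U.card B) S x))
    (fun o => (X o).filter (fun x =>
      MVio P.G (1 / c.p) c.D O y (c.h ^ 1000) (l / rho c L U.card B) S x))
    (fun o ho => filter_subset_filter _ ((hX o ho).trans (hsub o)))
    (fun o ho => (filter_subset _ _).trans (hX o ho)) (y o0)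
  have h2 := cs_full h hc ht U α Φ hΦ hΦc hv hg O y hy S hS0 hS (y o0)
  have h3 := den_all_le h hc U α Φ hΦ hΦc
  have h4 : P.den c (pts P.G P.V) U α Φ =
      (cell P.G (pts P.G P.V) U α Φ).card * c.W L U.card Φ.card := rfl
  rw [h4] at h3
  have h5 : (4096 : ℝ) ^ L = 512 ^ L * 8 ^ L := by rw [← mul_pow]; norm_num
  calc _ ≤ ((O.card : ℝ) * ((∑ x ∈ (cell P.G (pts P.G P.V) U α Φ).filter (fun x =>
          MVio P.G (1 / c.p) c.D O y (c.h ^ 1000) (l / rho c L U.card B) S x),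
            Vf P c O y Uᶜ ∅ (y o0) x) * c.W L U.card Φ.card)) *
          c.h ^ (4 * min S.card c.t0) := mul_le_mul_of_nonneg_right h1 hh
    _ = (O.card : ℝ) * c.W L U.card Φ.card *
          ((∑ x ∈ (cell P.G (pts P.G P.V) U α Φ).filter (fun x =>
          MVio P.G (1 / c.p) c.D O y (c.h ^ 1000) (l / rho c L U.card B) S x),
            Vf P c O y Uᶜ ∅ (y o0) x) * c.h ^ (4 * min S.card c.t0)) := by ring
    _ ≤ (O.card : ℝ) * c.W L U.card Φ.card *
          (512 ^ L * (cell P.G (pts P.G P.V) U α Φ).card) :=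
        mul_le_mul_of_nonneg_left h2 (mul_nonneg (Nat.cast_nonneg _) hW.le)
    _ = (O.card : ℝ) * 512 ^ L *
          ((cell P.G (pts P.G P.V) U α Φ).card * c.W L U.card Φ.card) := by ring
    _ ≤ (O.card : ℝ) * 512 ^ L * (8 ^ L * c.Tot L) :=
        mul_le_mul_of_nonneg_left h3 (by positivity)
    _ = _ := by rw [h5]; ring

open Classical in
theorem hv_small {P : Pl ν L} {c : Num} {R : ℕ} (h : P.OK c) (hc : c.OK R L)
    {B l : ℝ} (ht : c.TOK L B l)
    (U : Finset (Fin L)) (α : Fin L → ν) (Φ : Finset ν) (hΦ : Φ ⊆ P.Out) (hΦc : Φ.card ≤ 3 * L)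
    (hv : P.Val U α Φ) (hg : g ≤ c.w) (O : Finset ω) (y : ω → Fin g → ν)
    (hy : Fam P U α Φ O y (rho c L U.card B)) (X : ω → Finset (Fin L → ν))
    (hX : ∀ o ∈ O, X o ⊆ cell P.G (pts P.G P.V) U α (Φ ∪ univ.image (y o)))
    (S : Finset (Fin L)) (hS0 : S.Nonempty) (hS : Disjoint S U) (D : ℝ) (hD0 : 0 ≤ D)
    (hD : ∀ o ∈ O, ∀ z : Fin L → ν,
      P.den c (X o) (U ∪ S) z (Φ ∪ univ.image (y o)) ≤ D) :
    (∑ o ∈ O, P.den c ((X o).filter (fun x =>
      MVio P.G (1 / c.p) c.D O y (c.h ^ 1000) (l / rho c L U.card B) S x)) U α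
      (Φ ∪ univ.image (y o))) * c.h ^ (4 * min S.card c.t0) ≤ 128 ^ L * D * O.card := by
  obtain ⟨o0, ho0⟩ := hy.ne
  have hp := hc.p_pos
  have hn := hc.n_pos
  have hSU : (U ∪ S).card = U.card + S.card := by
    rw [card_union_of_disjoint hS.symm]
  have hut : U.card + S.card ≤ L := by
    rw [← hSU]
    exact (card_le_univ _).trans (by rw [Fintype.card_fin])
  have hh : (0 : ℝ) ≤ c.h ^ (4 * min S.card c.t0) := pow_nonneg (by linarith [hc.h_ge]) _
  have hW1 : 0 < c.W L U.card Φ.card := Num.W_pos hp hn _ _ _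
  have hW2 : 0 < c.W L (U.card + S.card) Φ.card := Num.W_pos hp hn _ _ _
  have hW3 : 0 < c.W L U.card (Φ.card + g) := Num.W_pos hp hn _ _ _
  have hW4 : 0 < c.W L (U.card + S.card) (Φ.card + g) := Num.W_pos hp hn _ _ _
  have hM : (0 : ℝ) < (1 / c.p) ^ (g * S.card) := by positivity
  have hOc : (0 : ℝ) < O.card := by exact_mod_cast card_pos.2 ⟨o0, ho0⟩
  set MV : (Fin L → ν) → Prop := fun x =>
    MVio P.G (1 / c.p) c.D O y (c.h ^ 1000) (l / rho c L U.card B) S x with hMV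
  set N : Finset (Fin L → ν) := (natT P U α Φ S).filter MV with hN
  set Zo : ω → Finset (Fin L → ν) := fun o =>
    N.filter (fun z => ∀ i ∈ S, ∀ j, P.G.Adj (z i) (y o j)) with hZo
  -- the fibres
  have hfib : ∀ o ∈ O, (((X o).filter MV).card : ℝ) * c.W L (U.card + S.card) (Φ.card + g) ≤
      (Zo o).card * D := by
    intro o ho
    have hmap : ∀ x ∈ (X o).filter MV, Hvs_pt S α x ∈ Zo o := by
      intro x hx
      obtain ⟨hx1, hx2⟩ := mem_filter.1 hx
      have hx3 := hX o ho hx1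
      rw [hZo, mem_filter, hN, mem_filter]
      refine ⟨⟨Hvs_pt_nat hS subset_union_left hx3, ?_⟩, fun i hi j => ?_⟩
      · exact MVio_congr (fun i hi => (Hvs_pt_mem hi).symm) hx2
      · rw [Hvs_pt_mem hi]
        exact Hvs_adj hx3 i j
    have hc1 : (((X o).filter MV).card : ℝ) =
        ∑ z ∈ Zo o, ((((X o).filter MV).filter (fun x => Hvs_pt S α x = z)).card : ℝ) := by
      rw [card_eq_sum_card_fiberwise hmap]
      push_cast
      rfl
    rw [hc1, sum_mul]
    have hc2 : ∀ z ∈ Zo o,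
        ((((X o).filter MV).filter (fun x => Hvs_pt S α x = z)).card : ℝ) *
          c.W L (U.card + S.card) (Φ.card + g) ≤ D := by
      intro z _
      have h1 := hD o ho z
      unfold Pl.den at h1
      rw [hSU, Hvs_card hy ho] at h1
      refine le_trans (mul_le_mul_of_nonneg_right ?_ hW4.le) h1
      have h2 : ((X o).filter MV).filter (fun x => Hvs_pt S α x = z) ⊆
          cell P.G (X o) (U ∪ S) z (Φ ∪ univ.image (y o)) := by
        intro x hx
        obtain ⟨hx1, hx2⟩ := mem_filter.1 hx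
        have hx3 := (mem_filter.1 hx1).1
        have hx4 := hX o ho hx3
        refine mem_cell.2 ⟨hx3, fun i hi => ?_, (mem_cell.1 hx4).2.2⟩
        rw [← hx2, Hvs_pt_union hS hx4 hi]
      exact_mod_cast card_le_card h2
    have := sum_le_card_nsmul (Zo o) _ D hc2
    rwa [nsmul_eq_mul] at this
  -- exchange of the sums
  have hex : (1 / c.p) ^ (g * S.card) * ∑ o ∈ O, ((Zo o).card : ℝ) =
      O.card * ∑ z ∈ N, Vf P c O y S ∅ (y o0) z := by
    have h1 : ∑ o ∈ O, ((Zo o).card : ℝ) =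
        ∑ z ∈ N, ((O.filter (fun o => (∀ j ∈ (∅ : Finset (Fin g)), y o j = y o0 j) ∧
          ∀ i ∈ S, ∀ j ∉ (∅ : Finset (Fin g)), P.G.Adj (z i) (y o j))).card : ℝ) := by
      have h2 : ∀ o ∈ O, ((Zo o).card : ℝ) = ∑ z ∈ N,
          if ∀ i ∈ S, ∀ j, P.G.Adj (z i) (y o j) then (1 : ℝ) else 0 := by
        intro o _
        rw [hZo, sum_boole]
      have h3 : ∀ z ∈ N, ((O.filter (fun o => (∀ j ∈ (∅ : Finset (Fin g)), y o j = y o0 j) ∧
          ∀ i ∈ S, ∀ j ∉ (∅ : Finset (Fin g)), P.G.Adj (z i) (y o j))).card : ℝ) =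
          ∑ o ∈ O, if ∀ i ∈ S, ∀ j, P.G.Adj (z i) (y o j) then (1 : ℝ) else 0 := by
        intro z _
        rw [sum_boole]
        congr 2
        ext o
        simp
      rw [sum_congr rfl h2, sum_congr rfl h3, sum_comm]
    rw [h1, mul_sum, mul_sum]
    refine sum_congr rfl fun z _ => ?_
    unfold Vf
    rw [card_empty, Nat.sub_zero]
    field_simp
  have hcs := cs_nat h hc ht U α Φ hΦ hΦc hv hg O y hy S hS0 hS (y o0)
  have hnc := (nat_card h hc U α Φ hΦ hΦc hv S hS).1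
  have hWW := Hvs_W (L := L) hp U.card S.card Φ.card g hut
  -- the sum of the densities
  have hsum : (∑ o ∈ O, P.den c ((X o).filter MV) U α (Φ ∪ univ.image (y o))) *
      c.W L (U.card + S.card) Φ.card ≤
      D * c.W L U.card Φ.card * (O.card * ∑ z ∈ N, Vf P c O y S ∅ (y o0) z) := by
    rw [← hex, sum_mul]
    calc ∑ o ∈ O, P.den c ((X o).filter MV) U α (Φ ∪ univ.image (y o)) *
          c.W L (U.card + S.card) Φ.card
        ≤ ∑ o ∈ O, D * c.W L U.card Φ.card * ((1 / c.p) ^ (g * S.card) * (Zo o).card) := by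
          refine sum_le_sum fun o ho => ?_
          rw [P.den_of_sub c ((filter_subset _ _).trans (hX o ho)), Hvs_card hy ho]
          calc (((X o).filter MV).card : ℝ) * c.W L U.card (Φ.card + g) *
                c.W L (U.card + S.card) Φ.card
              = ((X o).filter MV).card *
                (c.W L U.card (Φ.card + g) * c.W L (U.card + S.card) Φ.card) := by ring
            _ = c.W L U.card Φ.card * (1 / c.p) ^ (g * S.card) *
                (((X o).filter MV).card * c.W L (U.card + S.card) (Φ.card + g)) := by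
                rw [hWW]; ring
            _ ≤ c.W L U.card Φ.card * (1 / c.p) ^ (g * S.card) * ((Zo o).card * D) :=
                mul_le_mul_of_nonneg_left (hfib o ho) (mul_nonneg hW1.le hM.le)
            _ = _ := by ring
      _ = _ := by rw [← mul_sum, ← mul_sum]
  have hV0 : (0 : ℝ) ≤ D * c.W L U.card Φ.card * O.card :=
    mul_nonneg (mul_nonneg hD0 hW1.le) hOc.le
  have hfin : ((∑ o ∈ O, P.den c ((X o).filter MV) U α (Φ ∪ univ.image (y o))) *
      c.h ^ (4 * min S.card c.t0)) * c.W L (U.card + S.card) Φ.card ≤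
      (128 ^ L * D * O.card) * c.W L (U.card + S.card) Φ.card := by
    have h128 : (128 : ℝ) ^ L = 16 ^ L * 8 ^ L := by rw [← mul_pow]; norm_num
    calc _ = ((∑ o ∈ O, P.den c ((X o).filter MV) U α (Φ ∪ univ.image (y o))) *
          c.W L (U.card + S.card) Φ.card) * c.h ^ (4 * min S.card c.t0) := by ring
      _ ≤ (D * c.W L U.card Φ.card * (O.card * ∑ z ∈ N, Vf P c O y S ∅ (y o0) z)) *
          c.h ^ (4 * min S.card c.t0) := mul_le_mul_of_nonneg_right hsum hh
      _ = D * c.W L U.card Φ.card * O.card *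
          ((∑ z ∈ N, Vf P c O y S ∅ (y o0) z) * c.h ^ (4 * min S.card c.t0)) := by ring
      _ ≤ D * c.W L U.card Φ.card * O.card * (16 ^ L * (natT P U α Φ S).card) :=
          mul_le_mul_of_nonneg_left hcs hV0
      _ = D * O.card * 16 ^ L * ((natT P U α Φ S).card * c.W L U.card Φ.card) := by ring
      _ ≤ D * O.card * 16 ^ L * (8 ^ L * c.W L (U.card + S.card) Φ.card) :=
          mul_le_mul_of_nonneg_left hnc
            (mul_nonneg (mul_nonneg hD0 hOc.le) (by positivity))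
      _ = _ := by rw [h128]; ring
  exact le_of_mul_le_mul_right hfin hW2

end Pool.Agent.H49.RO
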