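/-
ROW RL_Hvf (about 220 lines). Lemma H, the contradiction for a spread family of heavy sets. Uses hv_fine, hv_large, hv_small, den_mono, den_nonneg, val_of_mem as stated.
Notation: `d = den A U α Φ`, `u = #U`, `u' = #U'`, `γ o = Q ∪ univ.image (y o)` (`#(γ o) = #Q + g`: Fam.inj, Fam.dis for `Φ ∪ Q`), `Φ ∪ γ o = (Φ ∪ Q) ∪ univ.image (y o)` (union_assoc), `d_o = den (X o) U' β (Φ ∪ γ o)`, `th = thr G0 d u #Q u'`. `0 ≤ th`, `thr G0 d u #(γ o) u' = 8^g th < d_o` (Heavy), so `8 th ≤ d_o`, `d ≤ thr .. < d_o` (`G0, 8, h ≥ 1`), `X o` is nonempty and `0 < d_o`.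
A point `x ∈ X o` lies in `cell (T ∅ = A) U' β (Φ ∪ γ o)`, `A ⊆ cell pts U α Φ`: so `Eqn U β α`, and `P.Val U' β (Φ ∪ Q)` (val_of_mem and Ad.mono). `Φ ∪ Q ⊆ Out`, `#(Φ ∪ Q) ≤ 3 L`.
(0) mvio_of: if `x` is not fine (Fn) then it is MVio at some nonempty `S` disjoint from `U'` (a violating nonempty `S` of least size). So `d_o ≤ den ((X o).filter Fn) + ∑_{S ⊆ U'ᶜ, S nonempty} den ((X o).filter (MVio S))`.
(1) `Y = cell (T Q) U' β (Φ ∪ Q)`: `X o ⊆ Y` (Heavy: `Q ⊆ γ o`, `Q ≠ γ o` as `g ≥ 1`); `den Y U' β (Φ ∪ Q) = den (T Q) U' β (Φ ∪ Q) ≤ th` (cell_cell, Tow.upper). hv_fine: `∑_o den (fine part) ≤ (5/4) th #O ≤ (5/32) ∑ d_o`.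
(2) `1 ≤ #S ≤ t0`: hv_small with `D' = h^(#S + 1) D`: by Heavy (`U'' = U' ∪ S ≠ U'`) `den (X o) (U' ∪ S) z (Φ ∪ γ o) ≤ thr G0 d u #(γ o) (u' + #S) = h^#S thr G0 d u #(γ o) u' ≤ h^#S d_o ≤ h^#S h D` (`u ≤ u'`). So `∑_o den (MVio S) h^(4 #S) ≤ 128^L h^(#S + 1) D #O ≤ 128^L h^(#S+1) ∑ d_o` (hD1), so `h^2 ∑_o den (MVio S) ≤ 128^L ∑ d_o` (`#S ≥ 1`, `h ≥ 1`).
(3) `#S > t0`: hv_large: `∑_o den (MVio S) h^(4 t0) ≤ 4096^L Tot #O`, `Tot ≤ Z1 d ≤ Z1 d_o` (Sp.dens), and `2^(40 L) Z1 ≤ h^(4 t0)` (FT): `2^(40 L) ∑_o den (MVio S) ≤ 2^(12 L) ∑ d_o`.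
(4) There are at most `2^L` sets `S`; `h ≥ 2^(100 L L) ≥ 2^(100 L)` (FQ, `e0 ≥ 1`, `L ≥ 1`), so all `S` together give `≤ 2^L (2^(7L) / h^2 + 2^(-28 L)) ∑ d_o ≤ (1/8) ∑ d_o`. Total `∑ d_o ≤ (5/32 + 1/8) ∑ d_o`, but `∑ d_o > 0`: contradiction.
(`D > 0` is not needed: `D ≤ d_o`; for hv_small `0 ≤ D'` since `0 < d_o ≤ h D`.) `c.tB1 : TOK L B1 l1`.
-/
import Pool.Agent.H11.RO.Hvs

set_option autoImplicit false
set_option linter.unusedSectionVars false

open Finset

namespace Pool.Agent.H49.RO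

open Pool.Agent.H49.RG (Cl Ad Eqn nbr cell pts mem_cell mem_nbr mem_pts cell_sub cell_mono
  cell_anti cell_cell cell_eq)
open Pool.Agent.H82.RO (HH ZZ Vio MVio NoVio Fam natT MVio_congr mem_natT)

variable {ν ω : Type} [Fintype ν] [DecidableEq ν] [DecidableEq ω] {L g : ℕ}

/-- A point that is not fine violates at a least set. -/
theorem Hvf_mvio {P : Pl ν L} {c : Num} {B l : ℝ} {U : Finset (Fin L)} {O : Finset ω}
    {y : ω → Fin g → ν} {x : Fin L → ν} (hx : ¬ Fn P c B l U O y x) :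
    ∃ S : Finset (Fin L), S.Nonempty ∧ Disjoint S U ∧
      MVio P.G (1 / c.p) c.D O y (c.h ^ 1000) (l / rho c L U.card B) S x := by
  classical
  unfold Fn at hx
  push Not at hx
  obtain ⟨T, hT1, hT2, hT3⟩ := hx
  obtain ⟨S, hS, hmin⟩ := Finset.exists_min_image ((univ : Finset (Finset (Fin L))).filter
    (fun S => S.Nonempty ∧ Disjoint S U ∧
      Vio P.G (1 / c.p) c.D O y (c.h ^ 1000) (l / rho c L U.card B) S x)) Finset.card
    ⟨T, mem_filter.2 ⟨mem_univ _, hT1, hT2, hT3⟩⟩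
  obtain ⟨-, h1, h2, h3⟩ := mem_filter.1 hS
  refine ⟨S, h1, h2, h3, fun T' hT' hne hT'0 hv => ?_⟩
  have h4 := hmin T' (mem_filter.2 ⟨mem_univ _, hT'0, disjoint_of_subset_left hT' h2, hv⟩)
  exact hne (eq_of_subset_of_card_le hT' h4)

/-- `h` is large. -/
theorem Hvf_h {c : Num} {R : ℕ} (hc : c.OK R L) : (2 : ℝ) ^ (100 * L) ≤ c.h := hc.FL

open Classical in
/-- Splitting the points of `X` into the fine points and the classes of the violating points. -/
theorem Hvf_split {P : Pl ν L} {c : Num} {R : ℕ} (hc : c.OK R L) {B l : ℝ} {U : Finset (Fin L)}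
    {α : Fin L → ν} {Φ : Finset ν} {O : Finset ω} {y : ω → Fin g → ν} {X : Finset (Fin L → ν)}
    (hX : X ⊆ cell P.G (pts P.G P.V) U α Φ) :
    P.den c X U α Φ ≤ P.den c (X.filter (fun x => Fn P c B l U O y x)) U α Φ +
      ∑ S ∈ (univ : Finset (Finset (Fin L))).filter (fun S => S.Nonempty ∧ Disjoint S U),
        P.den c (X.filter (fun x =>
          MVio P.G (1 / c.p) c.D O y (c.h ^ 1000) (l / rho c L U.card B) S x)) U α Φ := by
  have hW : 0 < c.W L U.card Φ.card := Num.W_pos hc.p_pos hc.n_pos _ _ _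
  have h1 : ∀ Y : Finset (Fin L → ν), Y ⊆ X → P.den c Y U α Φ = Y.card * c.W L U.card Φ.card :=
    fun Y hY => P.den_of_sub c (hY.trans hX)
  have h2 : ∑ S ∈ (univ : Finset (Finset (Fin L))).filter (fun S => S.Nonempty ∧ Disjoint S U),
        P.den c (X.filter (fun x =>
          MVio P.G (1 / c.p) c.D O y (c.h ^ 1000) (l / rho c L U.card B) S x)) U α Φ =
      (∑ S ∈ (univ : Finset (Finset (Fin L))).filter (fun S => S.Nonempty ∧ Disjoint S U),
        ((X.filter (fun x =>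
          MVio P.G (1 / c.p) c.D O y (c.h ^ 1000) (l / rho c L U.card B) S x)).card : ℝ)) *
        c.W L U.card Φ.card := by
    rw [sum_mul]
    exact sum_congr rfl fun S _ => h1 _ (filter_subset _ _)
  rw [h2, h1 X (subset_refl _), h1 _ (filter_subset _ _), ← add_mul]
  refine mul_le_mul_of_nonneg_right ?_ hW.le
  have h3 : X ⊆ X.filter (fun x => Fn P c B l U O y x) ∪
      ((univ : Finset (Finset (Fin L))).filter (fun S => S.Nonempty ∧ Disjoint S U)).biUnion
        (fun S => X.filter (fun x =>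
          MVio P.G (1 / c.p) c.D O y (c.h ^ 1000) (l / rho c L U.card B) S x)) := by
    intro x hx
    by_cases hf : Fn P c B l U O y x
    · exact mem_union_left _ (mem_filter.2 ⟨hx, hf⟩)
    · obtain ⟨S, hS1, hS2, hS3⟩ := Hvf_mvio hf
      exact mem_union_right _ (mem_biUnion.2 ⟨S, mem_filter.2 ⟨mem_univ _, hS1, hS2⟩,
        mem_filter.2 ⟨hx, hS3⟩⟩)
  have h4 := (card_le_card h3).trans ((card_union_le _ _).trans
    (Nat.add_le_add_left card_biUnion_le _))
  exact_mod_cast h4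

theorem heavy_fam {P : Pl ν L} {c : Num} {R : ℕ} (h : P.OK c) (hc : c.OK R L)
    {A : Finset (Fin L → ν)} {U : Finset (Fin L)} {α : Fin L → ν} {Φ : Finset ν} {G0 : ℝ}
    (hA : P.Sp c A U α Φ c.Z1 G0) (hG0 : 1 ≤ G0) {T : Finset ν → Finset (Fin L → ν)}
    (hT : P.Tow c G0 A U α Φ T) {U' : Finset (Fin L)} (hU : U ⊆ U') (hUU' : U ≠ U')
    (β : Fin L → ν) (hΦc : Φ.card + c.w ≤ 3 * L) (Q : Finset ν) (hQ : Q ⊆ P.Out)
    (hQΦ : Disjoint Q Φ) (hg1 : 1 ≤ g) (hgw : Q.card + g ≤ c.w) (O : Finset ω)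
    (y : ω → Fin g → ν) (hy : Fam P U' β (Φ ∪ Q) O y (rho c L U'.card c.B1))
    (X : ω → Finset (Fin L → ν))
    (hX : ∀ o ∈ O, P.Heavy c G0 (P.den c A U α Φ) U.card Φ T (Q ∪ univ.image (y o)) U' β (X o))
    (D : ℝ) (hD1 : ∀ o ∈ O, D ≤ P.den c (X o) U' β (Φ ∪ (Q ∪ univ.image (y o))))
    (hD2 : ∀ o ∈ O, P.den c (X o) U' β (Φ ∪ (Q ∪ univ.image (y o))) ≤ c.h * D) : False := by
  classical
  have hp := hc.p_pos
  have hn := hc.n_pos
  have hh1 := hc.h_ge
  have hh0 : (0 : ℝ) < c.h := by linarith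
  have hTot : 0 < c.Tot L := Num.Tot_pos hp hn L
  have hZ1 := hc.Z1_ge
  obtain ⟨o0, ho0⟩ := hy.ne
  have hassoc : ∀ o, Φ ∪ (Q ∪ univ.image (y o)) = (Φ ∪ Q) ∪ univ.image (y o) := fun o =>
    (union_assoc _ _ _).symm
  set d : ℝ := P.den c A U α Φ with hd
  have hd0 : 0 < d := by
    by_contra h1
    have h2 : c.Z1 * d ≤ 0 := mul_nonpos_of_nonneg_of_nonpos (by linarith) (not_lt.1 h1)
    have h3 := hA.dens
    linarith
  set th : ℝ := c.thr G0 d U.card Q.card U'.card with hth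
  have huu : U.card ≤ U'.card := card_le_card hU
  have hpow1 : ∀ m : ℕ, (1 : ℝ) ≤ c.h ^ m := fun m => one_le_pow₀ hh1
  have h8pow : ∀ m : ℕ, (1 : ℝ) ≤ 8 ^ m := fun m => one_le_pow₀ (by norm_num)
  have hth0 : d ≤ th := by
    rw [hth]
    unfold Num.thr
    refine le_mul_of_one_le_left hd0.le ?_
    exact one_le_mul_of_one_le_of_one_le (one_le_mul_of_one_le_of_one_le hG0 (h8pow _)) (hpow1 _)
  -- the sizes of the sets
  have hcard : ∀ o ∈ O, (Q ∪ univ.image (y o)).card = Q.card + g := by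
    intro o ho
    rw [card_union_of_disjoint, card_image_of_injective _ (hy.inj o ho), card_univ,
      Fintype.card_fin]
    rw [disjoint_right]
    intro v hv hvQ
    obtain ⟨j, _, rfl⟩ := mem_image.1 hv
    exact hy.dis o ho j (mem_union_right _ hvQ)
  have hQne : ∀ o ∈ O, Q ≠ Q ∪ univ.image (y o) := by
    intro o ho he
    have h1 := hcard o ho
    rw [← he] at h1
    omega
  set dd : ω → ℝ := fun o => P.den c (X o) U' β ((Φ ∪ Q) ∪ univ.image (y o)) with hdd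
  have hdd1 : ∀ o ∈ O, 8 ^ g * th < dd o := by
    intro o ho
    obtain ⟨-, -, h3, -⟩ := hX o ho
    rw [hcard o ho, hassoc o] at h3
    refine lt_of_eq_of_lt ?_ h3
    rw [hth]
    unfold Num.thr
    rw [pow_add]
    ring
  have hdd2 : ∀ o ∈ O, 8 * th ≤ dd o := by
    intro o ho
    refine le_trans ?_ (hdd1 o ho).le
    refine mul_le_mul_of_nonneg_right ?_ (by linarith)
    calc (8 : ℝ) = 8 ^ 1 := by norm_num
      _ ≤ 8 ^ g := pow_le_pow_right₀ (by norm_num) hg1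
  have hdd3 : ∀ o ∈ O, d ≤ dd o := fun o ho => by
    have := hdd2 o ho
    linarith
  have hAp : A ⊆ pts P.G P.V := hA.sub.trans (cell_sub _ _ _ _ _)
  have hXA : ∀ o ∈ O, X o ⊆ cell P.G A U' β ((Φ ∪ Q) ∪ univ.image (y o)) := by
    intro o ho
    obtain ⟨h1, -, -, -⟩ := hX o ho
    rw [hT.zero, hassoc o] at h1
    exact h1
  have hXp : ∀ o ∈ O, X o ⊆ cell P.G (pts P.G P.V) U' β ((Φ ∪ Q) ∪ univ.image (y o)) :=
    fun o ho => (hXA o ho).trans (cell_mono hAp _ _ _)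
  have hXne : (X o0).Nonempty := by
    by_contra h1
    rw [not_nonempty_iff_eq_empty] at h1
    have h2 : dd o0 = 0 := by
      show P.den c (X o0) U' β _ = 0
      rw [P.den_of_sub c (hXp o0 ho0), h1, card_empty, Nat.cast_zero, zero_mul]
    have h3 := hdd3 o0 ho0
    linarith
  obtain ⟨x0, hx0⟩ := hXne
  have hx0c := hXA o0 ho0 hx0
  have hΦQ : Φ ∪ Q ⊆ P.Out := union_subset hA.out hQ
  have hΦQc : (Φ ∪ Q).card ≤ 3 * L := by
    have := card_union_le Φ Q
    omega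
  have hval : P.Val U' β (Φ ∪ Q) := by
    refine val_of_mem (P := P) (x := x0) ?_
    exact cell_anti _ (subset_refl U') (fun _ _ => rfl) subset_union_left (hXp o0 ho0 hx0)
  have heqn : Eqn U β α := by
    intro j hj
    have h1 := (mem_cell.1 hx0c).2.1 j (hU hj)
    have h2 := (mem_cell.1 (hA.sub (mem_cell.1 hx0c).1)).2.1 j hj
    exact h1.symm.trans h2
  -- (1) the fine points
  have hfine : ∑ o ∈ O, P.den c ((X o).filter (fun x => Fn P c c.B1 c.l1 U' O y x)) U' β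
      ((Φ ∪ Q) ∪ univ.image (y o)) ≤ 5 / 32 * ∑ o ∈ O, dd o := by
    have h1 := hv_fine h hc hc.tB1 U' β (Φ ∪ Q) (by omega) O y hy
      (cell P.G (T Q) U' β (Φ ∪ Q)) (cell_mono ((hT.sub Q).trans
        ((cell_sub _ _ _ _ _).trans hAp)) _ _ _) X (by
        intro o ho x hx
        obtain ⟨-, h2, -, -⟩ := hX o ho
        have h3 := h2 Q subset_union_left (hQne o ho) hx
        have h4 := mem_cell.1 (hXA o ho hx)
        exact mem_cell.2 ⟨h3, h4.2.1, h4.2.2.mono (subset_refl _) subset_union_left⟩) hXp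
    refine h1.trans ?_
    have h2 : P.den c (cell P.G (T Q) U' β (Φ ∪ Q)) U' β (Φ ∪ Q) ≤ th := by
      have h3 : P.den c (cell P.G (T Q) U' β (Φ ∪ Q)) U' β (Φ ∪ Q) =
          P.den c (T Q) U' β (Φ ∪ Q) := by
        unfold Pl.den
        rw [cell_eq (subset_refl _)]
      rw [h3]
      exact hT.upper Q hQ hQΦ U' β hU hUU' heqn
    have h3 : 8 * th * O.card ≤ ∑ o ∈ O, dd o := by
      have h4 := card_nsmul_le_sum O dd (8 * th) hdd2
      rw [nsmul_eq_mul] at h4
      linarith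
    have h5 : (0 : ℝ) ≤ O.card := Nat.cast_nonneg _
    have h6 := mul_le_mul_of_nonneg_right h2 h5
    calc 5 / 4 * P.den c (cell P.G (T Q) U' β (Φ ∪ Q)) U' β (Φ ∪ Q) * O.card =
          5 / 4 * (P.den c (cell P.G (T Q) U' β (Φ ∪ Q)) U' β (Φ ∪ Q) * O.card) := by ring
      _ ≤ 5 / 4 * (th * O.card) := by linarith
      _ = 5 / 32 * (8 * th * O.card) := by ring
      _ ≤ _ := by linarith
  have hsum0 : 0 ≤ ∑ o ∈ O, dd o := sum_nonneg fun o ho => by
    have := hdd3 o ho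
    linarith
  have hDO : D * O.card ≤ ∑ o ∈ O, dd o := by
    have h4 := card_nsmul_le_sum O dd D (fun o ho => by
      have := hD1 o ho
      rwa [hassoc o] at this)
    rw [nsmul_eq_mul] at h4
    linarith
  have hbigh := Hvf_h hc
  -- (2), (3) the violating points
  have hmv : ∀ S : Finset (Fin L), S.Nonempty → Disjoint S U' →
      (∑ o ∈ O, P.den c ((X o).filter (fun x =>
        MVio P.G (1 / c.p) c.D O y (c.h ^ 1000) (c.l1 / rho c L U'.card c.B1) S x)) U' β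
        ((Φ ∪ Q) ∪ univ.image (y o))) * 2 ^ (28 * L) ≤ ∑ o ∈ O, dd o := by
    intro S hS0 hS
    set E : ℝ := ∑ o ∈ O, P.den c ((X o).filter (fun x =>
        MVio P.G (1 / c.p) c.D O y (c.h ^ 1000) (c.l1 / rho c L U'.card c.B1) S x)) U' β
        ((Φ ∪ Q) ∪ univ.image (y o)) with hE
    have hE0 : 0 ≤ E := sum_nonneg fun o _ => P.den_nonneg hp hn _ _ _ _
    have hSc : 1 ≤ S.card := hS0.card_pos
    by_cases hSt : S.card ≤ c.t0
    · have h1 := hv_small h hc hc.tB1 U' β (Φ ∪ Q) hΦQ hΦQc hval (by omega) O y hy X hXp S hS0 hS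
        (c.h ^ (S.card + 1) * D) (by
          have h2 := hD2 o0 ho0
          rw [hassoc o0] at h2
          have h3 := hdd3 o0 ho0
          have h4 : 0 < c.h * D := by
            have : dd o0 ≤ c.h * D := h2
            linarith
          have h5 : 0 < D := by
            by_contra h6
            have := mul_nonpos_of_nonneg_of_nonpos hh0.le (not_lt.1 h6)
            linarith
          positivity) (by
          intro o ho z
          obtain ⟨-, -, h2, h3⟩ := hX o ho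
          have hne : U' ≠ U' ∪ S := by
            intro he
            obtain ⟨i, hi⟩ := hS0
            have : i ∈ U' := by rw [he]; exact mem_union_right _ hi
            exact disjoint_left.1 hS hi this
          have h4 := h3 (U' ∪ S) z subset_union_left hne
          rw [hassoc o] at h4 h2
          refine h4.trans ?_
          have h5 : (U' ∪ S).card - U.card = (U'.card - U.card) + S.card := by
            rw [card_union_of_disjoint hS.symm]
            omega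
          have h6 : c.thr G0 d U.card (Q ∪ univ.image (y o)).card (U' ∪ S).card =
              c.h ^ S.card * c.thr G0 d U.card (Q ∪ univ.image (y o)).card U'.card := by
            unfold Num.thr
            rw [h5, pow_add]
            ring
          rw [h6]
          have h7 := hD2 o ho
          rw [hassoc o] at h7
          calc c.h ^ S.card * c.thr G0 d U.card (Q ∪ univ.image (y o)).card U'.card ≤
                c.h ^ S.card * (c.h * D) :=
                mul_le_mul_of_nonneg_left (h2.le.trans h7) (by positivity)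
            _ = c.h ^ (S.card + 1) * D := by ring)
      rw [← hE, Nat.min_eq_left hSt] at h1
      -- E h^(4 s) ≤ 128^L h^(s+1) D #O
      have h2 : E * c.h ^ (4 * S.card) ≤ c.h ^ (S.card + 1) * (128 ^ L * ∑ o ∈ O, dd o) := by
        refine h1.trans ?_
        calc 128 ^ L * (c.h ^ (S.card + 1) * D) * O.card =
              c.h ^ (S.card + 1) * (128 ^ L * (D * O.card)) := by ring
          _ ≤ _ := by gcongr
      have h3 : c.h ^ (S.card + 1) * (E * c.h ^ 2) ≤ E * c.h ^ (4 * S.card) := by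
        calc c.h ^ (S.card + 1) * (E * c.h ^ 2) = E * c.h ^ (S.card + 3) := by ring
          _ ≤ E * c.h ^ (4 * S.card) :=
            mul_le_mul_of_nonneg_left (pow_le_pow_right₀ hh1 (by omega)) hE0
      have h4 : E * c.h ^ 2 ≤ 128 ^ L * ∑ o ∈ O, dd o :=
        le_of_mul_le_mul_left (h3.trans h2) (by positivity)
      have h5 : (2 : ℝ) ^ (28 * L) * 128 ^ L ≤ c.h ^ 2 := by
        have h6 : (128 : ℝ) ^ L = 2 ^ (7 * L) := by
          rw [pow_mul]
          norm_num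
        rw [h6, ← pow_add]
        calc (2 : ℝ) ^ (28 * L + 7 * L) ≤ 2 ^ (100 * L) :=
              pow_le_pow_right₀ (by norm_num) (by omega)
          _ ≤ c.h := hbigh
          _ ≤ c.h ^ 2 := le_self_pow₀ hh1 (by norm_num)
      have h6 : (128 : ℝ) ^ L * (E * 2 ^ (28 * L)) ≤ 128 ^ L * ∑ o ∈ O, dd o := by
        refine le_trans ?_ h4
        calc (128 : ℝ) ^ L * (E * 2 ^ (28 * L)) = E * (2 ^ (28 * L) * 128 ^ L) := by ring
          _ ≤ E * c.h ^ 2 := mul_le_mul_of_nonneg_left h5 hE0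
      exact le_of_mul_le_mul_left h6 (by positivity)
    · have h1 := hv_large h hc hc.tB1 U' β (Φ ∪ Q) hΦQ hΦQc hval (by omega) O y hy X hXp S hS0 hS
      rw [← hE, Nat.min_eq_right (by omega)] at h1
      have h2 : c.Tot L * O.card ≤ c.Z1 * ∑ o ∈ O, dd o := by
        have h3 := card_nsmul_le_sum O (fun o => c.Z1 * dd o) (c.Tot L) (fun o ho =>
          hA.dens.trans (mul_le_mul_of_nonneg_left (hdd3 o ho) (by linarith)))
        rw [nsmul_eq_mul, ← mul_sum] at h3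
        linarith
      have hZ0 : 0 < c.Z1 := by linarith
      have h3 : c.Z1 * (E * 2 ^ (40 * L)) ≤ c.Z1 * (4096 ^ L * ∑ o ∈ O, dd o) := by
        calc c.Z1 * (E * 2 ^ (40 * L)) = E * (2 ^ (40 * L) * c.Z1) := by ring
          _ ≤ E * c.h ^ (4 * c.t0) := mul_le_mul_of_nonneg_left hc.FT hE0
          _ ≤ 4096 ^ L * c.Tot L * O.card := h1
          _ = 4096 ^ L * (c.Tot L * O.card) := by ring
          _ ≤ 4096 ^ L * (c.Z1 * ∑ o ∈ O, dd o) := by gcongr
          _ = _ := by ring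
      have h4 : E * 2 ^ (40 * L) ≤ 4096 ^ L * ∑ o ∈ O, dd o := le_of_mul_le_mul_left h3 hZ0
      have h5 : (4096 : ℝ) ^ L = 2 ^ (12 * L) := by
        rw [pow_mul]
        norm_num
      have h6 : (2 : ℝ) ^ (40 * L) = 2 ^ (12 * L) * 2 ^ (28 * L) := by
        rw [← pow_add]
        congr 1
        ring
      rw [h5, h6] at h4
      have h7 : (2 : ℝ) ^ (12 * L) * (E * 2 ^ (28 * L)) ≤ 2 ^ (12 * L) * ∑ o ∈ O, dd o := by
        linarith
      exact le_of_mul_le_mul_left h7 (by positivity)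
  -- (4) all together
  set 𝒮 : Finset (Finset (Fin L)) :=
    (univ : Finset (Finset (Fin L))).filter (fun S => S.Nonempty ∧ Disjoint S U') with h𝒮
  have h1 : ∑ o ∈ O, dd o ≤ ∑ o ∈ O, P.den c ((X o).filter (fun x =>
      Fn P c c.B1 c.l1 U' O y x)) U' β ((Φ ∪ Q) ∪ univ.image (y o)) +
      ∑ S ∈ 𝒮, ∑ o ∈ O, P.den c ((X o).filter (fun x =>
        MVio P.G (1 / c.p) c.D O y (c.h ^ 1000) (c.l1 / rho c L U'.card c.B1) S x)) U' β
        ((Φ ∪ Q) ∪ univ.image (y o)) := by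
    rw [sum_comm, ← sum_add_distrib]
    exact sum_le_sum fun o ho => Hvf_split hc (hXp o ho)
  have h2 : (∑ S ∈ 𝒮, ∑ o ∈ O, P.den c ((X o).filter (fun x =>
        MVio P.G (1 / c.p) c.D O y (c.h ^ 1000) (c.l1 / rho c L U'.card c.B1) S x)) U' β
        ((Φ ∪ Q) ∪ univ.image (y o))) * 2 ^ (28 * L) ≤ 2 ^ L * ∑ o ∈ O, dd o := by
    rw [sum_mul]
    refine (sum_le_card_nsmul 𝒮 _ (∑ o ∈ O, dd o) fun S hS => ?_).trans ?_
    · obtain ⟨-, h3, h4⟩ := mem_filter.1 hS
      exact hmv S h3 h4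
    · rw [nsmul_eq_mul]
      refine mul_le_mul_of_nonneg_right ?_ hsum0
      have h3 : 𝒮.card ≤ 2 ^ L := by
        refine (card_filter_le _ _).trans ?_
        rw [card_univ, Fintype.card_finset, Fintype.card_fin]
      exact_mod_cast h3
  set E : ℝ := ∑ S ∈ 𝒮, ∑ o ∈ O, P.den c ((X o).filter (fun x =>
        MVio P.G (1 / c.p) c.D O y (c.h ^ 1000) (c.l1 / rho c L U'.card c.B1) S x)) U' β
        ((Φ ∪ Q) ∪ univ.image (y o)) with hE
  have hE0 : 0 ≤ E := sum_nonneg fun S _ => sum_nonneg fun o _ => P.den_nonneg hp hn _ _ _ _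
  have h3 : E * 8 ≤ ∑ o ∈ O, dd o := by
    have h4 : (2 : ℝ) ^ L * (E * 8) ≤ 2 ^ L * ∑ o ∈ O, dd o := by
      refine le_trans ?_ h2
      have h5 : (2 : ℝ) ^ L * 8 ≤ 2 ^ (28 * L) := by
        calc (2 : ℝ) ^ L * 8 = 2 ^ (L + 3) := by ring
          _ ≤ 2 ^ (28 * L) := pow_le_pow_right₀ (by norm_num) (by
            have := hc.L_pos
            omega)
      calc (2 : ℝ) ^ L * (E * 8) = E * (2 ^ L * 8) := by ring
        _ ≤ E * 2 ^ (28 * L) := mul_le_mul_of_nonneg_left h5 hE0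
    exact le_of_mul_le_mul_left h4 (by positivity)
  have h4 : 0 < ∑ o ∈ O, dd o := by
    refine sum_pos (fun o ho => ?_) ⟨o0, ho0⟩
    have := hdd3 o ho
    linarith
  linarith

end Pool.Agent.H49.RO
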