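/-
ROW RL_Tsh (about 300 lines). Section 8: LEMMA TSH. Uses ts_star, fine_one, dc_eq, dc_le, tsh_a, heavy_exc, Tow.sp, den_all_le, den_of_sub as stated. `(B, l) = (β², c.l)`, hc.tB.
Notation: `d = den A U α Φ`, `u = #U`, `φ = #(Φ ∪ Q)`, `X = T Q`, `dX = den X U α (Φ ∪ Q) = #X W (u, φ)` (Tow.sub, den_of_sub), `γ o = Q ∪ univ.image (y o)`, `Φ ∪ γ o = (Φ ∪ Q) ∪ univ.image (y o)` has `φ + g` elements. `d > 0` (Sp.dens, Tot > 0), so `dX > 0` (hQd).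
(0) Tow.sp with `θ = 8^#Q`: `Sp X U α (Φ ∪ Q) (Z1 8^#Q) (G0 (8^#Q 8^#Q))`. ts_star: `2^(20L) Z1 8^#Q ≤ 2^(40 L) Z1 ≤ h^(4 t0)` (`#Q ≤ w ≤ L`, FT), `G0 64^#Q ≤ G1 64^w ≤ h^3` (FG3). `F = X.filter Fn`: `16 #F ≥ 15 #X`.
 Suppose the claim fails: `8 den (T (γ o)) U α (Φ ∪ γ o) < dX` for all `o ∈ O`.
(1) dc_eq for `F` and fine_one: `∑_o #{x ∈ F | x adj y o on Uᶜ} W (u, φ+g) ≥ (3/4) #O #F W (u, φ) ≥ (45/64) #O dX`.
(2) `#{x ∈ F | x adj y o on Uᶜ, x ∈ T (γ o)} W (u, φ+g) ≤ den (T (γ o)) U α (Φ ∪ γ o) < dX/8` (Tow.sub). So `∑_o #(Z_o) W (u, φ+g) ≥ (37/64) #O dX`, `Z_o = {x ∈ F | x adj y o on Uᶜ, x ∉ T (γ o)}`.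
(3) For `x ∈ Z_o`: Tow.heavy for `γ o` (`⊆ Out`, disjoint from `Φ`; `x ∈ A`; `Ad univ x (γ o)`: `x ∈ T Q` is adjacent to `Q`; on `U` `x = α` is adjacent to `y o` by Fam.adj) gives `γ' ⊆ γ o`, `x ∉ T γ'`, `U' ⊇ U`, `U' ≠ U`, `X'` with Heavy `γ' U' x X'`. `γ'` is not a subset of `Q` (else `T Q ⊆ T γ'`, Tow.anti). `Q' = γ' ∩ Q`, `γ'' = γ' \ Q ⊆ univ.image (y o)`, `k = #γ''`, `1 ≤ k ≤ g`:
 `γ'' ∈ HSet P c G0 d u Φ T Q' (Φ ∪ Q) U' x k`, `Ad univ x γ''`. So `Z_o ⊆ E_o ∪ ⋃_{(U', Q', k)} N_o(U', Q', k)`: `E` = the points `x` of `cell pts U α (Φ ∪ Q)` with `Bp^(2k) < #{γ ∈ HSet .. Q' (Φ ∪ Q) U' x k | Ad univ x γ}` for some triple; `E_o = {x ∈ F ∩ E | x adj y o on Uᶜ}`; `N_o(U',Q',k) = {x ∈ F \ E | x adj y o on Uᶜ, ∃ γ ∈ HSet .., Ad univ x γ ∧ γ ⊆ image (y o)}`.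
(4) heavy_exc (`#Q + k ≤ #Q + g ≤ w`) and the number `≤ 2^L 2^w w` of triples: `#E Bp^KX ≤ 2^L 2^w w 128^L #cell`, `#cell W (u, φ) ≤ 8^L Tot ≤ 8^L Z1 d ≤ 8^L Z1 8^#Q dX`; `2^(40 L) Z1 ≤ Bp^KX` (FX): `#E W (u, φ) ≤ 2^(L + w + L + 7L + 3L + 3L - 40 L) dX ≤ dX/64`. dc_le with `Y = F ∩ E`, `Vf ≤ 5/4` (fine_one): `∑_o #E_o W (u, φ+g) ≤ #O (5/4) (1/64) dX`.
(5) tsh_a with `Y = F \ E`, `K = Bp^(2k)`: `∑_o #N_o W (u, φ+g) ≤ #O dX Bp^(2k) 2 (w l/β²)^k = 2 #O dX (w l Bp²/β²)^k ≤ 2 #O dX w l Bp²/β²` (`w l Bp² ≤ β²` by FTS). Sum over the triples: `≤ #O dX 2^(L+w+1) w² l Bp²/β² ≤ (1/16) #O dX` (FTS).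
(6) `37/64 ≤ 5/256 + 4/64`: contradiction (`#O dX > 0`).
tsh (for families of sets): enumerate: `y' o : Fin g → ν` an enumeration of `y o` (`#(y o) = g`, e.g. `(Finset.equivFinOfCardEq _).symm`; off `O` anything), `univ.image (y' o) = y o`; `Fam P U α (Φ ∪ Q) O y' (rho c L #U β²)`: spr: if some `o1` has `y' o1 = q` on `A` then `#(A.image q) = #A` and `y' o = q` on `A` implies `A.image q ⊆ y o`; Pl.Fam.rate. Then tsh_tup.
-/
import Pool.Agent.H11.RO.Hx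
import Pool.Agent.H11.RO.Tsa

set_option autoImplicit false
set_option linter.unusedSectionVars false

open Finset

namespace Pool.Agent.H49.RO

open Pool.Agent.H49.RG (Cl Ad Eqn nbr cell pts mem_cell mem_nbr mem_pts cell_sub cell_mono
  cell_anti cell_cell cell_eq)
open Pool.Agent.H82.RO (HH ZZ Vio MVio NoVio Fam natT)

variable {ν ω : Type} [Fintype ν] [DecidableEq ν] [DecidableEq ω] {L g : ℕ}

theorem Tsh_w {c : Num} {R : ℕ} (hc : c.OK R L) : 1 ≤ c.w ∧ c.w ≤ L := by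
  have h1 := hc.wK
  have h2 := hc.K_le
  refine ⟨?_, by omega⟩
  rw [hc.w_eq]
  exact Nat.mul_pos hc.R_pos hc.f_pos

theorem Tsh_Bp {c : Num} {R : ℕ} (hc : c.OK R L) : 1 ≤ c.Bp := by
  have h1 := hc.FBp
  have h2 := hc.B1_ge
  have h3 : (0 : ℝ) ≤ c.cm := Nat.cast_nonneg _
  nlinarith [mul_nonneg h3 (by linarith : (0 : ℝ) ≤ c.B1)]

theorem Tsh_pow8 {m : ℕ} (hm : m ≤ L) : (8 : ℝ) ^ m ≤ 2 ^ (3 * L) := by
  have h1 : (8 : ℝ) ^ m = 2 ^ (3 * m) := by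
    rw [pow_mul]
    norm_num
  rw [h1]
  exact pow_le_pow_right₀ (by norm_num) (by omega)

theorem Tsh_sp {P : Pl ν L} {c : Num} {R : ℕ} (hc : c.OK R L)
    {A : Finset (Fin L → ν)} {U : Finset (Fin L)} {α : Fin L → ν} {Φ : Finset ν} {G0 : ℝ}
    (hA : P.Sp c A U α Φ c.Z1 G0) (hG0 : 1 ≤ G0)
    {T : Finset ν → Finset (Fin L → ν)} (hT : P.Tow c G0 A U α Φ T)
    (hΦc : Φ.card + c.w ≤ 3 * L) (Q : Finset ν) (hQ : Q ⊆ P.Out) (hQΦ : Disjoint Q Φ)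
    (hQd : P.den c A U α Φ ≤ 8 ^ Q.card * P.den c (T Q) U α (Φ ∪ Q)) (hQw : Q.card ≤ c.w) :
    P.Sp c (T Q) U α (Φ ∪ Q) (c.Z1 * 8 ^ Q.card) (G0 * (8 ^ Q.card * 8 ^ Q.card)) := by
  refine Pl.Tow.sp hc hA hT (by linarith [hc.Z1_ge]) hG0 (one_le_pow₀ (by norm_num)) Q hQ hQΦ ?_ hQd
  have := card_union_le Φ Q
  omega

open Classical in
theorem Tsh_fine {P : Pl ν L} {c : Num} {R : ℕ} (h : P.OK c) (hc : c.OK R L)
    {X : Finset (Fin L → ν)} {U : Finset (Fin L)} {α : Fin L → ν} {Ψ : Finset ν} {G0 : ℝ}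
    {m : ℕ} (hm : m ≤ c.w) (hG0 : 1 ≤ G0) (hG1 : G0 ≤ c.G1)
    (hX : P.Sp c X U α Ψ (c.Z1 * 8 ^ m) (G0 * (8 ^ m * 8 ^ m)))
    (hg : g ≤ c.w) (O : Finset ω) (y : ω → Fin g → ν)
    (hy : Fam P U α Ψ O y (rho c L U.card (c.β ^ 2))) :
    (15 : ℝ) * X.card ≤ 16 * (X.filter (fun x => Fn P c (c.β ^ 2) c.l U O y x)).card := by
  have hwL := (Tsh_w hc).2
  have hZ1 := hc.Z1_ge
  have h1 := ts_star h hc hc.tB X U α Ψ _ _ hX ?_ ?_ hg O y hy
  · have h2 := card_filter_add_card_filter_not (s := X) (fun x => Fn P c (c.β ^ 2) c.l U O y x)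
    have h3 : ((X.filter (fun x => Fn P c (c.β ^ 2) c.l U O y x)).card : ℝ) +
        ((X.filter (fun x => ¬ Fn P c (c.β ^ 2) c.l U O y x)).card : ℝ) = X.card := by
      exact_mod_cast h2
    linarith
  · have h2 : (8 : ℝ) ^ m ≤ 2 ^ (20 * L) := (Tsh_pow8 (hm.trans hwL)).trans
      (pow_le_pow_right₀ (by norm_num) (by omega))
    calc (2 : ℝ) ^ (20 * L) * (c.Z1 * 8 ^ m) ≤ 2 ^ (20 * L) * (c.Z1 * 2 ^ (20 * L)) := by
          have : 0 ≤ c.Z1 := by linarith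
          gcongr
      _ = 2 ^ (40 * L) * c.Z1 := by
          have : 40 * L = 20 * L + 20 * L := by ring
          rw [this, pow_add]
          ring
      _ ≤ _ := hc.FT
  · have h2 : (8 : ℝ) ^ m * 8 ^ m ≤ 64 ^ c.w := by
      rw [← mul_pow]
      norm_num
      exact pow_le_pow_right₀ (by norm_num) hm
    calc G0 * (8 ^ m * 8 ^ m) ≤ c.G1 * 64 ^ c.w :=
          mul_le_mul hG1 h2 (by positivity) (by linarith)
      _ ≤ _ := hc.FG3

open Classical in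
/-- The exceptional points for a triple. -/
noncomputable def Tsh_E (P : Pl ν L) (c : Num) (G0 d : ℝ) (Φ : Finset ν)
    (T : Finset ν → Finset (Fin L → ν)) (Q : Finset ν) (U : Finset (Fin L)) (α : Fin L → ν)
    (t : Finset (Fin L) × Finset ν × ℕ) : Finset (Fin L → ν) :=
  (cell P.G (pts P.G P.V) U α (Φ ∪ Q)).filter (fun x =>
      c.Bp ^ (2 * t.2.2) < (((HSet P c G0 d U.card Φ T t.2.1 (Φ ∪ Q) t.1 x t.2.2).filter
        (fun γ => Ad P.G univ x γ)).card : ℝ))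

/-- The triples. -/
def Tsh_TR (U : Finset (Fin L)) (Q : Finset ν) (g : ℕ) :
    Finset (Finset (Fin L) × Finset ν × ℕ) :=
  (univ.filter (fun U' => U ⊆ U' ∧ U ≠ U')) ×ˢ (Q.powerset ×ˢ Icc 1 g)

theorem Tsh_TR_mem {U : Finset (Fin L)} {Q : Finset ν} {g : ℕ}
    {t : Finset (Fin L) × Finset ν × ℕ} :
    t ∈ Tsh_TR U Q g ↔ (U ⊆ t.1 ∧ U ≠ t.1) ∧ t.2.1 ⊆ Q ∧ 1 ≤ t.2.2 ∧ t.2.2 ≤ g := by
  simp [Tsh_TR, mem_product, mem_filter, mem_powerset, mem_Icc]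

theorem Tsh_TR_card (U : Finset (Fin L)) (Q : Finset ν) (g : ℕ) :
    (Tsh_TR U Q g).card ≤ 2 ^ L * (2 ^ Q.card * g) := by
  unfold Tsh_TR
  rw [card_product, card_product, card_powerset, Nat.card_Icc]
  refine Nat.mul_le_mul ?_ (by simp)
  refine (card_le_univ _).trans ?_
  simp

theorem Tsh_exc {P : Pl ν L} {c : Num} {R : ℕ} (h : P.OK c) (hc : c.OK R L)
    {A : Finset (Fin L → ν)} {U : Finset (Fin L)} {α : Fin L → ν} {Φ : Finset ν} {G0 : ℝ}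
    (hA : P.Sp c A U α Φ c.Z1 G0) (hG0 : 1 ≤ G0)
    {T : Finset ν → Finset (Fin L → ν)} (hT : P.Tow c G0 A U α Φ T)
    (hΦc : Φ.card + c.w ≤ 3 * L) (Q : Finset ν) (hQ : Q ⊆ P.Out) (hQΦ : Disjoint Q Φ)
    (hQd : P.den c A U α Φ ≤ 8 ^ Q.card * P.den c (T Q) U α (Φ ∪ Q))
    (hgw : Q.card + g ≤ c.w) :
    ((((Tsh_TR U Q g).biUnion
      (Tsh_E P c G0 (P.den c A U α Φ) Φ T Q U α)).card : ℕ) : ℝ) * c.W L U.card (Φ ∪ Q).card * 64 ≤
      P.den c (T Q) U α (Φ ∪ Q) := by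
  classical
  have hwL := (Tsh_w hc).2
  have hL := hc.L_pos
  have hZ1 := hc.Z1_ge
  have hX := Tsh_sp hc hA hG0 hT hΦc Q hQ hQΦ hQd (by omega)
  set E := (Tsh_TR U Q g).biUnion (Tsh_E P c G0 (P.den c A U α Φ) Φ T Q U α) with hE
  set W := c.W L U.card (Φ ∪ Q).card with hW
  have hW0 : 0 < W := Num.W_pos hc.p_pos hc.n_pos _ _ _
  set dX := P.den c (T Q) U α (Φ ∪ Q) with hdX
  have hdX0 : 0 ≤ dX := P.den_nonneg hc.p_pos hc.n_pos _ _ _ _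
  -- the number of exceptional points
  have h1 : (E.card : ℝ) * c.Bp ^ c.KX ≤ ((Tsh_TR U Q g).card : ℝ) *
      (128 ^ L * (cell P.G (pts P.G P.V) U α (Φ ∪ Q)).card) := by
    have h2 : (E.card : ℝ) ≤ ∑ t ∈ Tsh_TR U Q g,
        ((Tsh_E P c G0 (P.den c A U α Φ) Φ T Q U α t).card : ℝ) := by
      have := card_biUnion_le (s := Tsh_TR U Q g)
        (t := Tsh_E P c G0 (P.den c A U α Φ) Φ T Q U α)
      exact_mod_cast this
    have hBp : (0 : ℝ) ≤ c.Bp ^ c.KX := pow_nonneg (by linarith [Tsh_Bp hc]) _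
    calc (E.card : ℝ) * c.Bp ^ c.KX ≤ (∑ t ∈ Tsh_TR U Q g,
        ((Tsh_E P c G0 (P.den c A U α Φ) Φ T Q U α t).card : ℝ)) * c.Bp ^ c.KX :=
          mul_le_mul_of_nonneg_right h2 hBp
      _ = ∑ t ∈ Tsh_TR U Q g,
        ((Tsh_E P c G0 (P.den c A U α Φ) Φ T Q U α t).card : ℝ) * c.Bp ^ c.KX := sum_mul _ _ _
      _ ≤ ∑ _t ∈ Tsh_TR U Q g, 128 ^ L *
          ((cell P.G (pts P.G P.V) U α (Φ ∪ Q)).card : ℝ) := by
          refine sum_le_sum fun t ht => ?_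
          obtain ⟨⟨h3, h4⟩, h5, h6, h7⟩ := Tsh_TR_mem.1 ht
          exact heavy_exc h hc hA hG0 hT h3 h4 hΦc Q t.2.1 hQ hQΦ h5 h6 (by omega)
      _ = _ := by rw [sum_const, nsmul_eq_mul]
  have h2 : ((cell P.G (pts P.G P.V) U α (Φ ∪ Q)).card : ℝ) * W ≤
      8 ^ L * (c.Z1 * 8 ^ Q.card * dX) := by
    have h3 := den_all_le h hc U α (Φ ∪ Q) hX.out hX.card_le
    have h4 := hX.dens
    have h5 : (0 : ℝ) ≤ 8 ^ L := by positivity
    exact h3.trans (mul_le_mul_of_nonneg_left h4 h5)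
  have h3 : ((Tsh_TR U Q g).card : ℝ) ≤ 2 ^ (3 * L) := by
    have h4 := Tsh_TR_card U Q g
    have h5 : 2 ^ L * (2 ^ Q.card * g) ≤ 2 ^ (3 * L) := by
      have h6 : 2 ^ Q.card ≤ 2 ^ L := Nat.pow_le_pow_right (by norm_num) (by omega)
      have h7 : g ≤ 2 ^ L := (show g ≤ L by omega).trans Nat.lt_two_pow_self.le
      calc 2 ^ L * (2 ^ Q.card * g) ≤ 2 ^ L * (2 ^ L * 2 ^ L) :=
            Nat.mul_le_mul le_rfl (Nat.mul_le_mul h6 h7)
        _ = 2 ^ (3 * L) := by ring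
    exact_mod_cast h4.trans h5
  have h4 : (8 : ℝ) ^ Q.card ≤ 2 ^ (3 * L) := Tsh_pow8 (by omega)
  have h5 : (8 : ℝ) ^ L = 2 ^ (3 * L) := by
    rw [pow_mul]
    norm_num
  have h6 : (128 : ℝ) ^ L = 2 ^ (7 * L) := by
    rw [pow_mul]
    norm_num
  have h7 : (E.card : ℝ) * W * (2 ^ (40 * L) * c.Z1) ≤ 2 ^ (16 * L) * c.Z1 * dX := by
    calc (E.card : ℝ) * W * (2 ^ (40 * L) * c.Z1) ≤ E.card * W * c.Bp ^ c.KX :=
          mul_le_mul_of_nonneg_left hc.FX (by positivity)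
      _ = E.card * c.Bp ^ c.KX * W := by ring
      _ ≤ ((Tsh_TR U Q g).card : ℝ) *
      (128 ^ L * (cell P.G (pts P.G P.V) U α (Φ ∪ Q)).card) * W :=
          mul_le_mul_of_nonneg_right h1 hW0.le
      _ = ((Tsh_TR U Q g).card : ℝ) * 128 ^ L *
        ((cell P.G (pts P.G P.V) U α (Φ ∪ Q)).card * W) := by ring
      _ ≤ 2 ^ (3 * L) * 2 ^ (7 * L) * (2 ^ (3 * L) * (c.Z1 * 2 ^ (3 * L) * dX)) := by
          rw [h6]
          refine mul_le_mul (mul_le_mul_of_nonneg_right h3 (by positivity)) (h2.trans ?_)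
            (by positivity) (by positivity)
          rw [h5]
          have : 0 ≤ c.Z1 := by linarith
          gcongr
      _ = _ := by
          have : 16 * L = 3 * L + 7 * L + (3 * L + 3 * L) := by ring
          rw [this, pow_add, pow_add, pow_add]
          ring
  have h8 : (64 : ℝ) * 2 ^ (16 * L) ≤ 2 ^ (40 * L) := by
    have : (64 : ℝ) = 2 ^ 6 := by norm_num
    rw [this, ← pow_add]
    exact pow_le_pow_right₀ (by norm_num) (by omega)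
  have hp : (0 : ℝ) < 2 ^ (16 * L) * c.Z1 := by
    have : 0 < c.Z1 := by linarith
    positivity
  refine le_of_mul_le_mul_left ?_ hp
  calc 2 ^ (16 * L) * c.Z1 * (E.card * W * 64) = E.card * W * ((64 * 2 ^ (16 * L)) * c.Z1) := by
        ring
    _ ≤ E.card * W * (2 ^ (40 * L) * c.Z1) := by
        have : 0 ≤ c.Z1 := by linarith
        gcongr
    _ ≤ _ := h7

open Classical in
theorem Tsh_N {P : Pl ν L} {c : Num} {R : ℕ} (h : P.OK c) (hc : c.OK R L)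
    {U : Finset (Fin L)} {α : Fin L → ν} {Ψ : Finset ν} {dX : ℝ}
    (hg : g ≤ c.w) (O : Finset ω) (y : ω → Fin g → ν)
    (hy : Fam P U α Ψ O y (rho c L U.card (c.β ^ 2))) (Y : Finset (Fin L → ν))
    (hYX : (Y.card : ℝ) * c.W L U.card Ψ.card ≤ dX)
    (hY : ∀ x ∈ Y, Fn P c (c.β ^ 2) c.l U O y x) (M : (Fin L → ν) → Finset (Finset ν)) (k : ℕ)
    (hk : 1 ≤ k) (hM : ∀ x ∈ Y, ∀ γ ∈ M x, γ.card = k)
    (hK : ∀ x ∈ Y, (((M x).filter (fun γ => Ad P.G univ x γ)).card : ℝ) ≤ c.Bp ^ (2 * k)) :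
    (∑ o ∈ O, ((Y.filter (fun x => (∀ i ∉ U, ∀ j, P.G.Adj (x i) (y o j)) ∧
      ∃ γ ∈ M x, Ad P.G univ x γ ∧ γ ⊆ univ.image (y o))).card : ℝ) *
        c.W L U.card (Ψ.card + g)) * (2 ^ (L + c.w + 4) * c.w) ≤ O.card * dX := by
  have h1 := tsh_a h hc hc.tB U α Ψ hg O y hy Y hY M k hM _ hK Ψ.card
  have hw1 : (1 : ℝ) ≤ c.w := by exact_mod_cast (Tsh_w hc).1
  have hl : 1 ≤ c.l := hc.tB.l_ge
  have hBp := Tsh_Bp hc
  have hβ := hc.β_ge
  have hβ2 : 0 < c.β ^ 2 := by positivity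
  have hFTS := hc.FTS
  have h2 : (1 : ℝ) ≤ 2 ^ (L + c.w + 5) := one_le_pow₀ (by norm_num)
  set z := c.w * c.l * c.Bp ^ 2 / c.β ^ 2 with hz
  have hz0 : 0 ≤ z := by positivity
  have hz1 : 2 ^ (L + c.w + 5) * c.w * z ≤ 1 := by
    rw [hz, ← mul_div_assoc, div_le_one hβ2]
    calc (2 : ℝ) ^ (L + c.w + 5) * c.w * (c.w * c.l * c.Bp ^ 2)
        = 2 ^ (L + c.w + 5) * (c.w : ℝ) ^ 2 * c.l * c.Bp ^ 2 := by ring
      _ ≤ _ := hFTS
  have hz2 : z ≤ 1 := by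
    have h3 : (1 : ℝ) ≤ 2 ^ (L + c.w + 5) * c.w := by nlinarith
    nlinarith
  have h3 : c.Bp ^ (2 * k) * (2 * (c.w * c.l / c.β ^ 2) ^ k) ≤ 2 * z := by
    have h4 : c.Bp ^ (2 * k) * (2 * (c.w * c.l / c.β ^ 2) ^ k) = 2 * z ^ k := by
      rw [hz, pow_mul]
      have : c.w * c.l * c.Bp ^ 2 / c.β ^ 2 = c.Bp ^ 2 * (c.w * c.l / c.β ^ 2) := by ring
      rw [this, mul_pow]
      ring
    rw [h4]
    have h5 : z ^ k ≤ z ^ 1 := pow_le_pow_of_le_one hz0 hz2 hk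
    rw [pow_one] at h5
    linarith
  have hO0 : (0 : ℝ) ≤ O.card := Nat.cast_nonneg _
  have hW0 : 0 < c.W L U.card Ψ.card := Num.W_pos hc.p_pos hc.n_pos _ _ _
  have hdX0 : 0 ≤ dX := le_trans (by positivity) hYX
  have h5 : (2 : ℝ) ^ (L + c.w + 4) * c.w * (2 * z) ≤ 1 := by
    calc (2 : ℝ) ^ (L + c.w + 4) * c.w * (2 * z) = 2 ^ (L + c.w + 5) * c.w * z := by
          rw [show L + c.w + 5 = (L + c.w + 4) + 1 by ring, pow_succ]
          ring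
      _ ≤ 1 := hz1
  have h6 : (0 : ℝ) ≤ 2 ^ (L + c.w + 4) * c.w := by positivity
  calc _ ≤ (O.card * (Y.card * c.W L U.card Ψ.card) *
        (c.Bp ^ (2 * k) * (2 * (c.w * c.l / c.β ^ 2) ^ k))) * (2 ^ (L + c.w + 4) * c.w) :=
        mul_le_mul_of_nonneg_right h1 h6
    _ ≤ (O.card * dX * (2 * z)) * (2 ^ (L + c.w + 4) * c.w) := by
        refine mul_le_mul_of_nonneg_right ?_ h6
        refine mul_le_mul (mul_le_mul_of_nonneg_left hYX hO0) h3 ?_ (by positivity)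
        have : 0 ≤ c.l := by linarith
        positivity
    _ = O.card * dX * (2 ^ (L + c.w + 4) * c.w * (2 * z)) := by ring
    _ ≤ O.card * dX * 1 := mul_le_mul_of_nonneg_left h5 (by positivity)
    _ = O.card * dX := mul_one _

open Classical in
/-- The points at which the family makes the set smaller. -/
theorem Tsh_cover {P : Pl ν L} {c : Num}
    {A : Finset (Fin L → ν)} {U : Finset (Fin L)} {α : Fin L → ν} {Φ : Finset ν} {G0 : ℝ}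
    {T : Finset ν → Finset (Fin L → ν)} (hT : P.Tow c G0 A U α Φ T)
    (Q : Finset ν) (hQ : Q ⊆ P.Out) (hQΦ : Disjoint Q Φ)
    (O : Finset ω) (y : ω → Fin g → ν) {ρ : ℝ}
    (hy : Fam P U α (Φ ∪ Q) O y ρ) (o : ω) (ho : o ∈ O) (x : Fin L → ν) (hx : x ∈ T Q)
    (hadj : ∀ i ∉ U, ∀ j, P.G.Adj (x i) (y o j)) (hxT : x ∉ T (Q ∪ univ.image (y o))) :
    ∃ t ∈ Tsh_TR U Q g, ∃ γ ∈ HSet P c G0 (P.den c A U α Φ) U.card Φ T t.2.1 (Φ ∪ Q) t.1 x t.2.2,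
      Ad P.G univ x γ ∧ γ ⊆ univ.image (y o) := by
  have hcell := mem_cell.1 (hT.sub Q hx)
  obtain ⟨hxA, hxE, hxAd⟩ := hcell
  have hyo : ∀ i j, P.G.Adj (x i) (y o j) := by
    intro i j
    by_cases hi : i ∈ U
    · rw [hxE i hi]
      exact hy.adj o ho j i hi
    · exact hadj i hi j
  have hout : Q ∪ univ.image (y o) ⊆ P.Out := by
    refine union_subset hQ ?_
    intro v hv
    obtain ⟨j, _, rfl⟩ := mem_image.1 hv
    exact hy.out o ho j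
  have hdisj : Disjoint (univ.image (y o)) (Φ ∪ Q) := by
    rw [disjoint_left]
    intro v hv
    obtain ⟨j, _, rfl⟩ := mem_image.1 hv
    exact hy.dis o ho j
  have hdis : Disjoint (Q ∪ univ.image (y o)) Φ :=
    disjoint_union_left.2 ⟨hQΦ, hdisj.mono_right subset_union_left⟩
  have had : Ad P.G univ x (Q ∪ univ.image (y o)) := by
    intro i hi v hv
    rcases mem_union.1 hv with hv | hv
    · exact hxAd i hi v (mem_union_right _ hv)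
    · obtain ⟨j, _, rfl⟩ := mem_image.1 hv
      exact hyo i j
  obtain ⟨γ', h1, h2, U', h3, h4, X', h5, h6⟩ := hT.heavy _ x hout hdis hxA had hxT
  have h7 : ¬ γ' ⊆ Q := fun h8 => h2 (hT.anti Q γ' h8 hx)
  have h8 : γ' \ Q ⊆ univ.image (y o) := by
    intro v hv
    obtain ⟨h9, h10⟩ := mem_sdiff.1 hv
    rcases mem_union.1 (h1 h9) with h11 | h11
    · exact absurd h11 h10
    · exact h11
  have h9 : (γ' ∩ Q) ∪ (γ' \ Q) = γ' := by
    rw [union_comm]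
    exact sdiff_union_inter γ' Q
  have h10 : 1 ≤ (γ' \ Q).card := by
    rw [Nat.one_le_iff_ne_zero, Ne, card_eq_zero, sdiff_eq_empty_iff_subset]
    exact h7
  have h11 : (γ' \ Q).card ≤ g := by
    refine (card_le_card h8).trans (card_image_le.trans ?_)
    simp
  refine ⟨(U', γ' ∩ Q, (γ' \ Q).card), Tsh_TR_mem.2 ⟨⟨h3, h4⟩, inter_subset_right, h10, h11⟩,
    γ' \ Q, ?_, fun i hi v hv => had i hi v (h1 (mem_sdiff.1 hv).1), h8⟩
  unfold HSet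
  refine mem_filter.2 ⟨mem_univ _, rfl, sdiff_subset.trans (h1.trans hout), ?_, X', ?_⟩
  · exact hdisj.mono_left h8
  · show P.Heavy c G0 (P.den c A U α Φ) U.card Φ T ((γ' ∩ Q) ∪ (γ' \ Q)) U' x X'
    rw [h9]
    exact h6

theorem tsh_tup {P : Pl ν L} {c : Num} {R : ℕ} (h : P.OK c) (hc : c.OK R L)
    {A : Finset (Fin L → ν)} {U : Finset (Fin L)} {α : Fin L → ν} {Φ : Finset ν} {G0 : ℝ}
    (hA : P.Sp c A U α Φ c.Z1 G0) (hG0 : 1 ≤ G0) (hG1 : G0 ≤ c.G1)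
    {T : Finset ν → Finset (Fin L → ν)} (hT : P.Tow c G0 A U α Φ T)
    (hΦc : Φ.card + c.w ≤ 3 * L) (Q : Finset ν) (hQ : Q ⊆ P.Out) (hQΦ : Disjoint Q Φ)
    (hQd : P.den c A U α Φ ≤ 8 ^ Q.card * P.den c (T Q) U α (Φ ∪ Q))
    (hg1 : 1 ≤ g) (hgw : Q.card + g ≤ c.w) (O : Finset ω) (y : ω → Fin g → ν)
    (hy : Fam P U α (Φ ∪ Q) O y (rho c L U.card (c.β ^ 2))) :
    ∃ o ∈ O, P.den c (T Q) U α (Φ ∪ Q) ≤
      8 * P.den c (T (Q ∪ univ.image (y o))) U α (Φ ∪ (Q ∪ univ.image (y o))) := by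
  classical
  obtain ⟨hw1, hwL⟩ := Tsh_w hc
  have hgw' : g ≤ c.w := by omega
  have hX := Tsh_sp hc hA hG0 hT hΦc Q hQ hQΦ hQd (by omega)
  have hF := Tsh_fine h hc (m := Q.card) (by omega) hG0 hG1 hX hgw' O y hy
  have hE := Tsh_exc h hc hA hG0 hT hΦc Q hQ hQΦ hQd hgw
  have hXd : P.den c (T Q) U α (Φ ∪ Q) = (T Q).card * c.W L U.card (Φ ∪ Q).card :=
    P.den_of_sub c hX.sub
  have hW0 : 0 < c.W L U.card (Φ ∪ Q).card := Num.W_pos hc.p_pos hc.n_pos _ _ _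
  have hW'0 : 0 < c.W L U.card ((Φ ∪ Q).card + g) := Num.W_pos hc.p_pos hc.n_pos _ _ _
  have hdpos : 0 < P.den c (T Q) U α (Φ ∪ Q) := by
    have h1 : 0 < c.Tot L := Num.Tot_pos hc.p_pos hc.n_pos L
    have h2 := hX.dens
    have h3 : (0 : ℝ) ≤ c.Z1 * 8 ^ Q.card := by
      have := hc.Z1_ge
      positivity
    by_contra h4
    have h5 := mul_nonpos_of_nonneg_of_nonpos h3 (not_lt.1 h4)
    linarith
  by_contra hcon
  push Not at hcon
  obtain ⟨o0, ho0⟩ := hy.ne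
  have hOpos : (0 : ℝ) < O.card := by exact_mod_cast card_pos.2 ⟨o0, ho0⟩
  generalize hdXe : P.den c (T Q) U α (Φ ∪ Q) = dX at *
  generalize hFe : (T Q).filter (fun x => Fn P c (c.β ^ 2) c.l U O y x) = F at *
  generalize hEe : (Tsh_TR U Q g).biUnion (Tsh_E P c G0 (P.den c A U α Φ) Φ T Q U α) = E at *
  have hFF : ∀ x ∈ F, x ∈ T Q ∧ Fn P c (c.β ^ 2) c.l U O y x := by
    intro x hx
    rw [← hFe] at hx
    exact mem_filter.1 hx
  have hV : ∀ x ∈ F, 3 / 4 ≤ Vf P c O y Uᶜ ∅ (y o0) x ∧ Vf P c O y Uᶜ ∅ (y o0) x ≤ 5 / 4 :=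
    fun x hx => fine_one h hc hc.tB U α (Φ ∪ Q) hgw' O y hy x (hFF x hx).2 (y o0)
  -- (1)
  have h1 : (O.card : ℝ) * (45 / 64 * dX) ≤
      ∑ o ∈ O, ((F.filter (fun x => ∀ i ∉ U, ∀ j, P.G.Adj (x i) (y o j))).card : ℝ) *
      c.W L U.card ((Φ ∪ Q).card + g) := by
    rw [dc_eq hc.p_pos U (Φ ∪ Q).card O ⟨o0, ho0⟩ y F (y o0)]
    refine mul_le_mul_of_nonneg_left ?_ hOpos.le
    have h2 : (F.card : ℝ) * (3 / 4) ≤ ∑ x ∈ F, Vf P c O y Uᶜ ∅ (y o0) x := by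
      rw [← nsmul_eq_mul, ← sum_const]
      exact sum_le_sum fun x hx => (hV x hx).1
    have h3 : 45 / 64 * dX ≤ (F.card * (3 / 4)) * c.W L U.card (Φ ∪ Q).card := by
      rw [hXd]
      nlinarith
    exact h3.trans (mul_le_mul_of_nonneg_right h2 hW0.le)
  -- (2)
  have h2 : ∀ o ∈ O, ((T (Q ∪ univ.image (y o))).card : ℝ) *
      c.W L U.card ((Φ ∪ Q).card + g) ≤ dX / 8 := by
    intro o ho
    have h3 := hcon o ho
    have h4 := P.den_of_sub c (hT.sub (Q ∪ univ.image (y o)))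
    have h5 : (Φ ∪ (Q ∪ univ.image (y o))).card = (Φ ∪ Q).card + g := by
      rw [← union_assoc, card_union_of_disjoint, card_image_of_injective _ (hy.inj o ho)]
      · simp
      · rw [disjoint_right]
        intro v hv
        obtain ⟨j, _, rfl⟩ := mem_image.1 hv
        exact hy.dis o ho j
    rw [h5] at h4
    rw [h4] at h3
    linarith
  -- (3)
  have h3 : ∀ o ∈ O, ((F.filter (fun x => ∀ i ∉ U, ∀ j, P.G.Adj (x i) (y o j))).card : ℝ) ≤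
      (((F.filter (fun x => x ∈ E)).filter
        (fun x => ∀ i ∉ U, ∀ j, P.G.Adj (x i) (y o j))).card : ℝ) +
      ∑ t ∈ Tsh_TR U Q g, (((F.filter (fun x => x ∉ E)).filter
        (fun x => (∀ i ∉ U, ∀ j, P.G.Adj (x i) (y o j)) ∧
        ∃ γ ∈ HSet P c G0 (P.den c A U α Φ) U.card Φ T t.2.1 (Φ ∪ Q) t.1 x t.2.2,
          Ad P.G univ x γ ∧ γ ⊆ univ.image (y o))).card : ℝ) +
      ((T (Q ∪ univ.image (y o))).card : ℝ) := by
    intro o ho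
    have h4 : F.filter (fun x => ∀ i ∉ U, ∀ j, P.G.Adj (x i) (y o j)) ⊆
        ((F.filter (fun x => x ∈ E)).filter (fun x => ∀ i ∉ U, ∀ j, P.G.Adj (x i) (y o j)) ∪
        (Tsh_TR U Q g).biUnion (fun t => (F.filter (fun x => x ∉ E)).filter
        (fun x => (∀ i ∉ U, ∀ j, P.G.Adj (x i) (y o j)) ∧
        ∃ γ ∈ HSet P c G0 (P.den c A U α Φ) U.card Φ T t.2.1 (Φ ∪ Q) t.1 x t.2.2,
          Ad P.G univ x γ ∧ γ ⊆ univ.image (y o)))) ∪ T (Q ∪ univ.image (y o)) := by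
      intro x hx
      obtain ⟨h5, h6⟩ := mem_filter.1 hx
      by_cases h7 : x ∈ T (Q ∪ univ.image (y o))
      · exact mem_union_right _ h7
      refine mem_union_left _ ?_
      by_cases h8 : x ∈ E
      · exact mem_union_left _ (mem_filter.2 ⟨mem_filter.2 ⟨h5, h8⟩, h6⟩)
      refine mem_union_right _ ?_
      obtain ⟨t, ht, γ, h9, h10, h11⟩ :=
        Tsh_cover hT Q hQ hQΦ O y hy o ho x (hFF x h5).1 h6 h7
      exact mem_biUnion.2 ⟨t, ht, mem_filter.2 ⟨mem_filter.2 ⟨h5, h8⟩, h6, γ, h9, h10, h11⟩⟩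
    have h5 := (card_le_card h4).trans ((card_union_le _ _).trans
      (Nat.add_le_add_right ((card_union_le _ _).trans
        (Nat.add_le_add_left card_biUnion_le _)) _))
    exact_mod_cast h5
  -- (4)
  have h4 : ∑ o ∈ O, (((F.filter (fun x => x ∈ E)).filter
        (fun x => ∀ i ∉ U, ∀ j, P.G.Adj (x i) (y o j))).card : ℝ) *
      c.W L U.card ((Φ ∪ Q).card + g) ≤ O.card * (5 / 256 * dX) := by
    refine (dc_le hc.p_pos hc.n_pos U (Φ ∪ Q).card O ⟨o0, ho0⟩ y (F.filter (fun x => x ∈ E))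
      (fun o => (F.filter (fun x => x ∈ E)).filter
        (fun x => ∀ i ∉ U, ∀ j, P.G.Adj (x i) (y o j))) (fun o _ => filter_subset _ _)
      (fun o _ x hx => (mem_filter.1 hx).2) (y o0)).trans ?_
    refine mul_le_mul_of_nonneg_left ?_ hOpos.le
    have h5 : ∑ x ∈ F.filter (fun x => x ∈ E), Vf P c O y Uᶜ ∅ (y o0) x ≤
        ((F.filter (fun x => x ∈ E)).card : ℝ) * (5 / 4) := by
      rw [← nsmul_eq_mul, ← sum_const]
      exact sum_le_sum fun x hx => (hV x (mem_filter.1 hx).1).2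
    have h6 : ((F.filter (fun x => x ∈ E)).card : ℝ) ≤ E.card := by
      exact_mod_cast card_le_card fun x hx => (mem_filter.1 hx).2
    calc _ ≤ ((F.filter (fun x => x ∈ E)).card : ℝ) * (5 / 4) * c.W L U.card (Φ ∪ Q).card :=
          mul_le_mul_of_nonneg_right h5 hW0.le
      _ ≤ E.card * (5 / 4) * c.W L U.card (Φ ∪ Q).card := by gcongr
      _ = 5 / 256 * (E.card * c.W L U.card (Φ ∪ Q).card * 64) := by ring
      _ ≤ 5 / 256 * dX := by linarith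
  -- (5)
  have h5 : (∑ t ∈ Tsh_TR U Q g, ∑ o ∈ O, (((F.filter (fun x => x ∉ E)).filter
        (fun x => (∀ i ∉ U, ∀ j, P.G.Adj (x i) (y o j)) ∧
        ∃ γ ∈ HSet P c G0 (P.den c A U α Φ) U.card Φ T t.2.1 (Φ ∪ Q) t.1 x t.2.2,
          Ad P.G univ x γ ∧ γ ⊆ univ.image (y o))).card : ℝ) *
      c.W L U.card ((Φ ∪ Q).card + g)) ≤ O.card * (1 / 16 * dX) := by
    have hK0 : (0 : ℝ) < 2 ^ (L + c.w + 4) * c.w := by
      have : (0 : ℝ) < c.w := by exact_mod_cast hw1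
      positivity
    refine le_of_mul_le_mul_right ?_ hK0
    rw [sum_mul]
    have h6 : ∀ t ∈ Tsh_TR U Q g, (∑ o ∈ O, (((F.filter (fun x => x ∉ E)).filter
        (fun x => (∀ i ∉ U, ∀ j, P.G.Adj (x i) (y o j)) ∧
        ∃ γ ∈ HSet P c G0 (P.den c A U α Φ) U.card Φ T t.2.1 (Φ ∪ Q) t.1 x t.2.2,
          Ad P.G univ x γ ∧ γ ⊆ univ.image (y o))).card : ℝ) *
      c.W L U.card ((Φ ∪ Q).card + g)) * (2 ^ (L + c.w + 4) * c.w) ≤ O.card * dX := by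
      intro t ht
      obtain ⟨⟨h7, h8⟩, h9, h10, h11⟩ := Tsh_TR_mem.1 ht
      refine Tsh_N h hc hgw' O y hy (F.filter (fun x => x ∉ E)) ?_
        (fun x hx => (hFF x (mem_filter.1 hx).1).2)
        (fun x => HSet P c G0 (P.den c A U α Φ) U.card Φ T t.2.1 (Φ ∪ Q) t.1 x t.2.2) t.2.2 h10
        (fun x _ γ hγ => ?_) (fun x hx => ?_)
      · rw [hXd]
        refine mul_le_mul_of_nonneg_right ?_ hW0.le
        exact_mod_cast card_le_card fun x hx => (hFF x (mem_filter.1 hx).1).1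
      · exact (mem_filter.1 hγ).2.1
      · obtain ⟨h12, h13⟩ := mem_filter.1 hx
        by_contra h14
        refine h13 ?_
        rw [← hEe]
        refine mem_biUnion.2 ⟨t, ht, ?_⟩
        unfold Tsh_E
        exact mem_filter.2 ⟨hX.sub (hFF x h12).1, not_le.1 h14⟩
    refine (sum_le_sum h6).trans ?_
    rw [sum_const, nsmul_eq_mul]
    have h7 : ((Tsh_TR U Q g).card : ℝ) ≤ 2 ^ L * (2 ^ c.w * c.w) := by
      have h8 := Tsh_TR_card U Q g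
      have h9 : 2 ^ L * (2 ^ Q.card * g) ≤ 2 ^ L * (2 ^ c.w * c.w) := by
        refine Nat.mul_le_mul le_rfl (Nat.mul_le_mul
          (Nat.pow_le_pow_right (by norm_num) (by omega)) hgw')
      exact_mod_cast h8.trans h9
    calc ((Tsh_TR U Q g).card : ℝ) * (O.card * dX) ≤
          (2 ^ L * (2 ^ c.w * c.w)) * (O.card * dX) :=
          mul_le_mul_of_nonneg_right h7 (by positivity)
      _ = O.card * (1 / 16 * dX) * (2 ^ (L + c.w + 4) * c.w) := by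
          rw [pow_add, pow_add]
          ring
  -- (6)
  have h6 : ∑ o ∈ O, ((F.filter (fun x => ∀ i ∉ U, ∀ j, P.G.Adj (x i) (y o j))).card : ℝ) *
      c.W L U.card ((Φ ∪ Q).card + g) ≤
      O.card * (5 / 256 * dX) + O.card * (1 / 16 * dX) + O.card * (dX / 8) := by
    have h7 : ∑ o ∈ O, ((F.filter (fun x => ∀ i ∉ U, ∀ j, P.G.Adj (x i) (y o j))).card : ℝ) *
      c.W L U.card ((Φ ∪ Q).card + g) ≤
      ∑ o ∈ O, ((((F.filter (fun x => x ∈ E)).filter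
        (fun x => ∀ i ∉ U, ∀ j, P.G.Adj (x i) (y o j))).card : ℝ) *
        c.W L U.card ((Φ ∪ Q).card + g) +
      ∑ t ∈ Tsh_TR U Q g, (((F.filter (fun x => x ∉ E)).filter
        (fun x => (∀ i ∉ U, ∀ j, P.G.Adj (x i) (y o j)) ∧
        ∃ γ ∈ HSet P c G0 (P.den c A U α Φ) U.card Φ T t.2.1 (Φ ∪ Q) t.1 x t.2.2,
          Ad P.G univ x γ ∧ γ ⊆ univ.image (y o))).card : ℝ) *
        c.W L U.card ((Φ ∪ Q).card + g) + dX / 8) := by
      refine sum_le_sum fun o ho => ?_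
      have h8 := mul_le_mul_of_nonneg_right (h3 o ho) hW'0.le
      rw [add_mul, add_mul, sum_mul] at h8
      linarith [h2 o ho]
    rw [sum_add_distrib, sum_add_distrib, sum_const, nsmul_eq_mul, sum_comm] at h7
    linarith
  have h7 := h1.trans h6
  have h8 : (0 : ℝ) < O.card * dX := mul_pos hOpos hdpos
  nlinarith

theorem tsh {P : Pl ν L} {c : Num} {R : ℕ} (h : P.OK c) (hc : c.OK R L)
    {A : Finset (Fin L → ν)} {U : Finset (Fin L)} {α : Fin L → ν} {Φ : Finset ν} {G0 : ℝ}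
    (hA : P.Sp c A U α Φ c.Z1 G0) (hG0 : 1 ≤ G0) (hG1 : G0 ≤ c.G1)
    {T : Finset ν → Finset (Fin L → ν)} (hT : P.Tow c G0 A U α Φ T)
    (hΦc : Φ.card + c.w ≤ 3 * L) (Q : Finset ν) (hQ : Q ⊆ P.Out) (hQΦ : Disjoint Q Φ)
    (hQd : P.den c A U α Φ ≤ 8 ^ Q.card * P.den c (T Q) U α (Φ ∪ Q))
    (O : Finset ω) (hO : O.Nonempty) (y : ω → Finset ν)
    (hf : P.Fam c (c.β ^ 2) U α (Φ ∪ Q) O y g) (hgw : Q.card + g ≤ c.w) :
    ∃ o ∈ O, P.den c (T Q) U α (Φ ∪ Q) ≤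
      8 * P.den c (T (Q ∪ y o)) U α (Φ ∪ (Q ∪ y o)) := by
  classical
  -- enumerations
  have hen : ∀ o, ∃ e : Fin g → ν, o ∈ O → Function.Injective e ∧ univ.image e = y o := by
    intro o
    by_cases ho : o ∈ O
    · have hcard := hf.card o ho
      let e : Fin g → ν := fun j => ((y o).equivFinOfCardEq hcard).symm j
      refine ⟨e, fun _ => ⟨?_, ?_⟩⟩
      · intro i j hij
        exact ((y o).equivFinOfCardEq hcard).symm.injective (Subtype.ext hij)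
      · ext v
        rw [mem_image]
        constructor
        · rintro ⟨j, _, rfl⟩
          exact (((y o).equivFinOfCardEq hcard).symm j).2
        · intro hv
          refine ⟨(y o).equivFinOfCardEq hcard ⟨v, hv⟩, mem_univ _, ?_⟩
          simp [e]
    · obtain ⟨o1, ho1⟩ := hO
      have hcard := hf.card o1 ho1
      exact ⟨fun j => ((y o1).equivFinOfCardEq hcard).symm j, fun ho' => absurd ho' ho⟩
  choose y' hy' using hen
  have him : ∀ o ∈ O, ∀ j, y' o j ∈ y o := by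
    intro o ho j
    rw [← (hy' o ho).2]
    exact mem_image_of_mem _ (mem_univ j)
  have hfam : Fam P U α (Φ ∪ Q) O y' (rho c L U.card (c.β ^ 2)) := by
    refine ⟨hO, fun o ho => (hy' o ho).1, fun o ho j => hf.out o ho (him o ho j),
      fun o ho j => disjoint_left.1 (hf.dis o ho) (him o ho j),
      fun o ho j i hi => hf.ad o ho i hi _ (him o ho j), ?_⟩
    intro B q
    have hρ : 0 ≤ rho c L U.card (c.β ^ 2) := by
      have := hc.p_pos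
      unfold rho
      positivity
    by_cases hne : (H82.RO.fam O y' B q).Nonempty
    · obtain ⟨o1, ho1⟩ := hne
      obtain ⟨ho1, hq1⟩ := H82.RO.mem_fam.1 ho1
      have hcard : (B.image q).card = B.card := by
        refine card_image_of_injOn fun i hi j hj hij => (hy' o1 ho1).1 ?_
        rw [hq1 i hi, hq1 j hj, hij]
      have h1 := hf.rate (B.image q)
      rw [hcard] at h1
      refine le_trans (mul_le_mul_of_nonneg_right ?_ (pow_nonneg hρ _)) h1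
      refine Nat.cast_le.2 (card_le_card fun o ho => ?_)
      obtain ⟨ho2, hq2⟩ := H82.RO.mem_fam.1 ho
      refine mem_filter.2 ⟨ho2, fun v hv => ?_⟩
      obtain ⟨j, hj, rfl⟩ := mem_image.1 hv
      rw [← hq2 j hj]
      exact him o ho2 j
    · rw [not_nonempty_iff_eq_empty.1 hne, card_empty, Nat.cast_zero, zero_mul]
      exact Nat.cast_nonneg _
  obtain ⟨o, ho, h1⟩ := tsh_tup h hc hA hG0 hG1 hT hΦc Q hQ hQΦ hQd hf.g_pos hgw O y' hfam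
  refine ⟨o, ho, ?_⟩
  rw [(hy' o ho).2] at h1
  exact h1

end Pool.Agent.H49.RO
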